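import Pool.Agent.Run7.h250.QA.Fam

/-!
The isogeny of degree two.
-/

set_option autoImplicit false

namespace Pool.Agent.Run7.h250.QA

theorem sq_finite (c : ℚ) : {y : ℚ | y ^ 2 = c}.Finite := by
  by_cases h : ∃ r : ℚ, r ^ 2 = c
  · obtain ⟨r, hr⟩ := h
    refine (Set.toFinite ({r, -r} : Set ℚ)).subset fun y hy => ?_
    have h1 : y ^ 2 = r ^ 2 := by rw [hr]; exact hy
    rcases sq_eq_sq_iff_eq_or_eq_neg.1 h1 with h2 | h2
    · exact Or.inl h2
    · exact Or.inr h2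
  · refine Set.finite_empty.subset fun y hy => ?_
    exact absurd ⟨y, hy⟩ h

theorem quad_finite (p q : ℚ) : {x : ℚ | x ^ 2 + p * x + q = 0}.Finite := by
  by_cases h : ∃ r : ℚ, r ^ 2 + p * r + q = 0
  · obtain ⟨r, hr⟩ := h
    refine (Set.toFinite ({r, -p - r} : Set ℚ)).subset fun y hy => ?_
    have hy : y ^ 2 + p * y + q = 0 := hy
    have h1 : (y - r) * (y - (-p - r)) = 0 := by linear_combination hy - hr
    rcases mul_eq_zero.1 h1 with h2 | h2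
    · exact Or.inl (sub_eq_zero.1 h2)
    · exact Or.inr (sub_eq_zero.1 h2)
  · refine Set.finite_empty.subset fun y hy => ?_
    exact absurd ⟨y, hy⟩ h

theorem iso_finite {a b : ℤ} (h : (Pts (-2 * a) (a ^ 2 - 4 * b) 0).Finite) :
    (Pts a b 0).Finite := by
  have key : ∀ p ∈ Pts a b 0, p.2 ^ 2 / p.1 ^ 2 ∈ insert 0 (Prod.fst '' Pts (-2 * a) (a ^ 2 - 4 * b) 0) ∧
      (p.1 = 0 ∨ p.1 ^ 2 + (a - p.2 ^ 2 / p.1 ^ 2) * p.1 + b = 0) := by
    rintro ⟨x, y⟩ hp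
    have he : y ^ 2 = x ^ 3 + a * x ^ 2 + b * x + ((0 : ℤ) : ℚ) := hp
    rw [Int.cast_zero, add_zero] at he
    by_cases hx : x = 0
    · subst hx
      refine ⟨Or.inl ?_, Or.inl rfl⟩
      show y ^ 2 / (0 : ℚ) ^ 2 = 0
      norm_num
    · refine ⟨Or.inr ⟨(y ^ 2 / x ^ 2, y * (b - x ^ 2) / x ^ 2), ?_, rfl⟩, Or.inr ?_⟩
      · show (y * (b - x ^ 2) / x ^ 2) ^ 2 = (y ^ 2 / x ^ 2) ^ 3 +
          ((-2 * a : ℤ) : ℚ) * (y ^ 2 / x ^ 2) ^ 2 +
          ((a ^ 2 - 4 * b : ℤ) : ℚ) * (y ^ 2 / x ^ 2) + ((0 : ℤ) : ℚ)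
        have e1 : y ^ 2 / x ^ 2 = x + a + b / x := by
          rw [he]; field_simp
        have e2 : (y * (b - x ^ 2) / x ^ 2) ^ 2 = (y ^ 2 / x ^ 2) * (b / x - x) ^ 2 := by
          field_simp
        rw [e2, e1]
        push_cast
        field_simp
        ring
      · show x ^ 2 + (a - y ^ 2 / x ^ 2) * x + b = 0
        rw [he]
        field_simp
        ring
  refine Set.Finite.of_finite_fibers (fun p : ℚ × ℚ => p.2 ^ 2 / p.1 ^ 2) ?_ ?_
  · refine ((h.image Prod.fst).insert 0).subset ?_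
    rintro _ ⟨p, hp, rfl⟩
    exact (key p hp).1
  · rintro X -
    refine (Set.Finite.biUnion (((Set.finite_singleton (0 : ℚ)).union (quad_finite (a - X) b)))
      (fun x _ => (Set.finite_singleton x).prod
        (sq_finite (x ^ 3 + a * x ^ 2 + b * x)))).subset ?_
    rintro ⟨x, y⟩ ⟨hp, hX⟩
    have hX : y ^ 2 / x ^ 2 = X := hX
    have h1 := (key _ hp).2
    simp only [hX] at h1
    have he : y ^ 2 = x ^ 3 + a * x ^ 2 + b * x + ((0 : ℤ) : ℚ) := hp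
    rw [Int.cast_zero, add_zero] at he
    refine Set.mem_iUnion₂.2 ⟨x, ?_, rfl, he⟩
    rcases h1 with h1 | h1
    · exact Or.inl h1
    · exact Or.inr h1

/-- the first family -/
theorem fam1_finite {m : ℤ} (h : (Pts (-(4 * m)) (2 * m ^ 2) 0).Finite) :
    (Pts (8 * m) (8 * m ^ 2) 0).Finite := by
  refine iso_finite ?_
  have h1 := scale_finite (k := 2) (by norm_num) h
  have e1 : -(4 * m) * 2 ^ 2 = -2 * (8 * m) := by ring
  have e2 : 2 * m ^ 2 * 2 ^ 4 = (8 * m) ^ 2 - 4 * (8 * m ^ 2) := by ring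
  rw [e1, e2, zero_mul] at h1
  exact h1

end Pool.Agent.Run7.h250.QA
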