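import Pool.Agent.Run7.h250.QA.Cmp

/-!
The singular cubics, and the completeness of the search for points.
-/

set_option autoImplicit false

namespace Pool.Agent.Run7.h250.QA

/-- a cubic with a multiple root has rational roots -/
theorem roots_of_disc {a b c : ℤ} (hD : disc a b c = 0) :
    ∃ r s : ℚ, (a : ℚ) = -(2 * r + s) ∧ (b : ℚ) = r ^ 2 + 2 * r * s ∧ (c : ℚ) = -(r ^ 2 * s) := by
  have h : -4 * (a : ℚ) ^ 3 * c + (a : ℚ) ^ 2 * b ^ 2 + 18 * a * b * c - 4 * (b : ℚ) ^ 3 -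
      27 * (c : ℚ) ^ 2 = 0 := by
    have : ((disc a b c : ℤ) : ℚ) = 0 := by rw [hD]; norm_num
    unfold disc at this
    push_cast at this
    exact this
  generalize (a : ℚ) = A at *
  generalize (b : ℚ) = B at *
  generalize (c : ℚ) = C at *
  by_cases hd : A ^ 2 - 3 * B = 0
  · have hB : B = A ^ 2 / 3 := by linear_combination -hd / 3
    subst hB
    have h1 : (C - A ^ 3 / 27) ^ 2 = 0 := by linear_combination (-1 / 27) * h
    have h2 : C = A ^ 3 / 27 := by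
      have := pow_eq_zero_iff (two_ne_zero) |>.1 h1
      linarith
    refine ⟨-A / 3, -A / 3, by ring, by ring, ?_⟩
    rw [h2]
    ring
  · obtain ⟨r, hr⟩ : ∃ r : ℚ, r = (9 * C - A * B) / (2 * (A ^ 2 - 3 * B)) := ⟨_, rfl⟩
    have h2 : 2 * (A ^ 2 - 3 * B) * r = 9 * C - A * B := by
      rw [hr]
      field_simp
    have h3 : 3 * r ^ 2 + 2 * A * r + B = 0 := by
      have h4 : (4 * (A ^ 2 - 3 * B) ^ 2) * (3 * r ^ 2 + 2 * A * r + B) = 0 := by
        linear_combination (-9) * h + (3 * (2 * (A ^ 2 - 3 * B) * r + (9 * C - A * B)) +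
          4 * A * (A ^ 2 - 3 * B)) * h2
      rcases mul_eq_zero.1 h4 with h5 | h5
      · exact absurd h5 (mul_ne_zero (by norm_num) (pow_ne_zero 2 hd))
      · exact h5
    have h4 : r ^ 3 + A * r ^ 2 + B * r + C = 0 := by
      linear_combination (r / 3 + A / 9) * h3 - (1 / 9) * h2
    refine ⟨r, -A - 2 * r, by ring, by linear_combination h3, ?_⟩
    linear_combination h4 - r * h3

theorem exists_of_sing {a b c : ℤ} (hD : disc a b c = 0) :
    ∃ x y : ℚ, (x, y) ∈ Pts a b c ∧ 1 < N x := by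
  obtain ⟨r, s, ha, hb, hc⟩ := roots_of_disc hD
  obtain ⟨j, hj⟩ := pow_unbounded_of_one_lt (max (N s) 1) (show (1 : ℚ) < 4 by norm_num)
  have hN : N (((1 / 2 : ℚ) ^ j) ^ 2) = 4 ^ j := by
    rw [N_pow, N_pow, N_div, N_two]
    have : N (1 : ℚ) = 1 := by simp [N]
    rw [this]
    norm_num
    rw [← pow_mul, mul_comm, pow_mul]
    norm_num
  have h1 : N s < N (((1 / 2 : ℚ) ^ j) ^ 2) := by
    rw [hN]
    exact lt_of_le_of_lt (le_max_left _ _) hj
  have h2 := N_add h1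
  refine ⟨((1 / 2 : ℚ) ^ j) ^ 2 + s, (((1 / 2 : ℚ) ^ j) ^ 2 + s - r) * (1 / 2 : ℚ) ^ j, ?_, ?_⟩
  · generalize (1 / 2 : ℚ) ^ j = t
    show ((t ^ 2 + s - r) * t) ^ 2 = (t ^ 2 + s) ^ 3 + a * (t ^ 2 + s) ^ 2 + b * (t ^ 2 + s) + c
    rw [ha, hb, hc]
    ring
  · rw [h2, hN]
    exact lt_of_le_of_lt (le_max_right _ _) hj

/-- completeness of the search -/
theorem exists_of_infinite' {a b c : ℤ} (h : (Pts a b c).Infinite) :
    ∃ x y : ℚ, (x, y) ∈ Pts a b c ∧ 1 < N x := by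
  by_cases hD : disc a b c = 0
  · exact exists_of_sing hD
  · exact exists_of_infinite hD h

end Pool.Agent.Run7.h250.QA
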