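import Pool.Agent.Run7.h250.QA.Dbl

/-!
If `y² = x³ + a x² + b x + c` (integers `a, b, c`, nonzero discriminant) has infinitely many rational
points, then the first coordinate of one of them is not integral at two.
-/

set_option autoImplicit false

namespace Pool.Agent.Run7.h250.QA

/-- the chord through `(x₁, y₁)` and `(x₂, - y₂)` -/
theorem chord {a b c : ℤ} {x₁ y₁ x₂ y₂ l : ℚ} (h1 : (x₁, y₁) ∈ Pts a b c)
    (hl2 : l * (y₁ - y₂) = x₁ ^ 2 + x₁ * x₂ + x₂ ^ 2 + a * (x₁ + x₂) + b)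
    (hl1 : l * (x₁ - x₂) = y₁ + y₂) :
    (l ^ 2 - a - x₁ - x₂, -(y₁ + l * (l ^ 2 - a - x₁ - x₂ - x₁))) ∈ Pts a b c := by
  have he : y₁ ^ 2 = x₁ ^ 3 + a * x₁ ^ 2 + b * x₁ + c := h1
  have hK : 2 * l * y₁ = x₁ ^ 2 + x₁ * x₂ + x₂ ^ 2 + a * (x₁ + x₂) + b + l ^ 2 * (x₁ - x₂) := by
    linear_combination hl2 - l * hl1
  show (-(y₁ + l * (l ^ 2 - a - x₁ - x₂ - x₁))) ^ 2 = (l ^ 2 - a - x₁ - x₂) ^ 3 +
      a * (l ^ 2 - a - x₁ - x₂) ^ 2 + b * (l ^ 2 - a - x₁ - x₂) + c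
  linear_combination he + (l ^ 2 - a - x₁ - x₂ - x₁) * hK

/-- the discriminant -/
def disc (a b c : ℤ) : ℤ :=
  -4 * a ^ 3 * c + a ^ 2 * b ^ 2 + 18 * a * b * c - 4 * b ^ 3 - 27 * c ^ 2

theorem disc_le {a b c : ℤ} {x : ℚ} (hx : N x ≤ 1) :
    N (disc a b c) ≤ max (N (x ^ 3 + a * x ^ 2 + b * x + c)) (N (3 * x ^ 2 + 2 * a * x + b)) := by
  have e : ((disc a b c : ℤ) : ℚ) =
      (((-4 * a ^ 3 + 15 * a * b - 27 * c : ℤ) : ℚ) + ((18 * b - 6 * a ^ 2 : ℤ) : ℚ) * x) *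
        (x ^ 3 + a * x ^ 2 + b * x + c) +
      (((a ^ 2 * b + 3 * a * c - 4 * b ^ 2 : ℤ) : ℚ) +
        (((2 * a ^ 3 - 7 * a * b + 9 * c : ℤ) : ℚ) * x +
        ((2 * a ^ 2 - 6 * b : ℤ) : ℚ) * x ^ 2)) * (3 * x ^ 2 + 2 * a * x + b) := by
    unfold disc
    push_cast
    ring
  have h1 : ∀ (z : ℤ) (n : ℕ), N ((z : ℚ) * x ^ n) ≤ 1 := by
    intro z n
    rw [N_mul, N_pow]
    exact mul_le_one₀ (N_int z) (pow_nonneg (N_nonneg x) n) (pow_le_one₀ (N_nonneg x) hx)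
  have hA : N (((-4 * a ^ 3 + 15 * a * b - 27 * c : ℤ) : ℚ) + ((18 * b - 6 * a ^ 2 : ℤ) : ℚ) * x) ≤
      1 := by
    refine (N_le_add _ _).trans (max_le (N_int _) ?_)
    have := h1 (18 * b - 6 * a ^ 2) 1
    rwa [pow_one] at this
  have hB : N (((a ^ 2 * b + 3 * a * c - 4 * b ^ 2 : ℤ) : ℚ) +
      (((2 * a ^ 3 - 7 * a * b + 9 * c : ℤ) : ℚ) * x + ((2 * a ^ 2 - 6 * b : ℤ) : ℚ) * x ^ 2)) ≤
      1 := by
    refine (N_le_add _ _).trans (max_le (N_int _) ((N_le_add _ _).trans (max_le ?_ (h1 _ 2))))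
    have := h1 (2 * a ^ 3 - 7 * a * b + 9 * c) 1
    rwa [pow_one] at this
  rw [e]
  refine (N_le_add _ _).trans (max_le_max ?_ ?_)
  · rw [N_mul]
    exact mul_le_of_le_one_left (N_nonneg _) hA
  · rw [N_mul]
    exact mul_le_of_le_one_left (N_nonneg _) hB

/-- two points which are close at two give a point which is not integral at two -/
theorem of_close {a b c : ℤ} {x₁ y₁ x₂ y₂ : ℚ} {ε : ℚ} (h1 : (x₁, y₁) ∈ Pts a b c)
    (h2 : (x₂, y₂) ∈ Pts a b c) (hne : (x₁, y₁) ≠ (x₂, y₂)) (hx1 : N x₁ ≤ 1) (hx2 : N x₂ ≤ 1)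
    (hε0 : 0 ≤ ε) (hε : 2 * ε < N (disc a b c)) (hx : N (x₁ - x₂) ≤ ε) (hy : N (y₁ - y₂) ≤ ε) :
    ∃ x y : ℚ, (x, y) ∈ Pts a b c ∧ 1 < N x := by
  have he1 : y₁ ^ 2 = x₁ ^ 3 + a * x₁ ^ 2 + b * x₁ + c := h1
  have he2 : y₂ ^ 2 = x₂ ^ 3 + a * x₂ ^ 2 + b * x₂ + c := h2
  set δ := N (disc a b c) with hδ
  have hδ1 : δ ≤ 1 := N_int _
  have hδ0 : 0 < δ := by linarith
  have hε1 : ε < 1 := by linarith
  have hprod : (y₁ - y₂) * (y₁ + y₂) =
      (x₁ - x₂) * (x₁ ^ 2 + x₁ * x₂ + x₂ ^ 2 + a * (x₁ + x₂) + b) := by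
    linear_combination he1 - he2
  -- a slope of absolute value bigger than one is sufficient
  have key : ∀ l : ℚ, l * (y₁ - y₂) = x₁ ^ 2 + x₁ * x₂ + x₂ ^ 2 + a * (x₁ + x₂) + b →
      l * (x₁ - x₂) = y₁ + y₂ → 1 < N l → ∃ x y : ℚ, (x, y) ∈ Pts a b c ∧ 1 < N x := by
    intro l hl2 hl1 hl
    refine ⟨_, _, chord h1 hl2 hl1, ?_⟩
    have h3 : N (-(a : ℚ) - x₁ - x₂) ≤ 1 := by
      have e : -(a : ℚ) - x₁ - x₂ = ((-a : ℤ) : ℚ) + (-x₁ + -x₂) := by push_cast; ring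
      rw [e]
      refine (N_le_add _ _).trans (max_le (N_int _) ((N_le_add _ _).trans (max_le ?_ ?_)))
      · rw [N, padicNorm.neg]; exact hx1
      · rw [N, padicNorm.neg]; exact hx2
    have h4 : 1 < N (l ^ 2) := by
      rw [N_pow]; nlinarith
    have h5 := N_add (lt_of_le_of_lt h3 h4)
    have e : l ^ 2 - a - x₁ - x₂ = l ^ 2 + (-(a : ℚ) - x₁ - x₂) := by ring
    rw [e, h5]
    exact h4
  have hd := disc_le (a := a) (b := b) (c := c) hx1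
  rw [← he1] at hd
  rcases le_max_iff.1 hd with hd | hd
  · -- `y₁` is big
    have hy1 : δ ≤ N y₁ ^ 2 := by rwa [N_pow] at hd
    have h2y : N (2 * y₁) = N y₁ / 2 := by rw [N_mul, N_two]; ring
    have hy1' : 2 * ε < N y₁ := by
      by_contra hcon
      rw [not_lt] at hcon
      have : N y₁ ^ 2 ≤ (2 * ε) ^ 2 := pow_le_pow_left₀ (N_nonneg _) hcon 2
      nlinarith
    have h3 : N (y₂ - y₁) < N (2 * y₁) := by
      rw [h2y, ← neg_sub, N, padicNorm.neg]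
      refine lt_of_le_of_lt hy ?_
      linarith
    have h4 : N (y₁ + y₂) = N y₁ / 2 := by
      have := N_add h3
      rw [h2y] at this
      rw [← this]
      congr 1
      ring
    have hxn : x₁ - x₂ ≠ 0 := by
      intro h0
      have h5 : (y₁ - y₂) * (y₁ + y₂) = 0 := by rw [hprod, h0, zero_mul]
      rcases mul_eq_zero.1 h5 with h6 | h6
      · exact hne (Prod.ext (sub_eq_zero.1 h0) (sub_eq_zero.1 h6))
      · rw [h6] at h4
        have : N (0 : ℚ) = 0 := padicNorm.zero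
        rw [this] at h4
        linarith
    refine key ((y₁ + y₂) / (x₁ - x₂)) ?_ (div_mul_cancel₀ _ hxn) ?_
    · rw [div_mul_eq_mul_div, div_eq_iff hxn]
      linear_combination hprod
    · rw [N_div, h4]
      have hpos : 0 < N (x₁ - x₂) := by
        rcases (N_nonneg (x₁ - x₂)).lt_or_eq with h | h
        · exact h
        · exact absurd (padicNorm.zero_of_padicNorm_eq_zero h.symm) hxn
      rw [one_lt_div hpos]
      refine lt_of_le_of_lt hx ?_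
      linarith
  · -- the derivative is big
    have h3 : N ((x₂ - x₁) * (x₂ + 2 * x₁ + a)) ≤ ε := by
      rw [N_mul]
      have h4 : N (x₂ - x₁) ≤ ε := by rw [← neg_sub, N, padicNorm.neg]; exact hx
      have h5 : N (x₂ + 2 * x₁ + a) ≤ 1 := by
        refine (N_le_add _ _).trans (max_le ((N_le_add _ _).trans (max_le hx2 ?_)) (N_int _))
        rw [N_mul, N_two]; linarith
      calc N (x₂ - x₁) * N (x₂ + 2 * x₁ + a) ≤ ε * 1 :=
            mul_le_mul h4 h5 (N_nonneg _) hε0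
        _ = ε := mul_one ε
    have h4 : N (x₁ ^ 2 + x₁ * x₂ + x₂ ^ 2 + a * (x₁ + x₂) + b) =
        N (3 * x₁ ^ 2 + 2 * a * x₁ + b) := by
      have h5 : N ((x₂ - x₁) * (x₂ + 2 * x₁ + a)) < N (3 * x₁ ^ 2 + 2 * a * x₁ + b) := by
        refine lt_of_le_of_lt h3 (lt_of_lt_of_le ?_ hd)
        linarith
      rw [← N_add h5]
      congr 1
      ring
    have hyn : y₁ - y₂ ≠ 0 := by
      intro h0
      have h5 : (x₁ - x₂) * (x₁ ^ 2 + x₁ * x₂ + x₂ ^ 2 + a * (x₁ + x₂) + b) = 0 := by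
        rw [← hprod, h0, zero_mul]
      rcases mul_eq_zero.1 h5 with h6 | h6
      · exact hne (Prod.ext (sub_eq_zero.1 h6) (sub_eq_zero.1 h0))
      · rw [h6] at h4
        have : N (0 : ℚ) = 0 := padicNorm.zero
        rw [this] at h4
        linarith
    refine key ((x₁ ^ 2 + x₁ * x₂ + x₂ ^ 2 + a * (x₁ + x₂) + b) / (y₁ - y₂))
      (div_mul_cancel₀ _ hyn) ?_ ?_
    · rw [div_mul_eq_mul_div, div_eq_iff hyn]
      linear_combination -hprod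
    · rw [N_div, h4]
      have hpos : 0 < N (y₁ - y₂) := by
        rcases (N_nonneg (y₁ - y₂)).lt_or_eq with h | h
        · exact h
        · exact absurd (padicNorm.zero_of_padicNorm_eq_zero h.symm) hyn
      rw [one_lt_div hpos]
      refine lt_of_le_of_lt hy (lt_of_lt_of_le ?_ hd)
      linarith

/-- an integral element modulo a power of two -/
theorem exists_map (M : ℕ) : ∃ g : ℚ → ZMod (2 ^ M), ∀ x y : ℚ, N x ≤ 1 → N y ≤ 1 → g x = g y →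
    N (x - y) ≤ (2 : ℚ) ^ (-(M : ℤ)) := by
  classical
  have h0 : ∀ x : ℚ, N x ≤ 1 → ‖((x : ℚ) : ℚ_[2])‖ ≤ 1 := by
    intro x hx
    rw [Padic.eq_padicNorm]
    exact_mod_cast hx
  let z : ∀ x : ℚ, N x ≤ 1 → ℤ_[2] := fun x h => ⟨(x : ℚ_[2]), h0 x h⟩
  refine ⟨fun x => if h : N x ≤ 1 then PadicInt.toZModPow M (z x h) else 0,
    fun x y hx hy h => ?_⟩
  simp only [dif_pos hx, dif_pos hy] at h
  have h1 : PadicInt.toZModPow M (z x hx - z y hy) = 0 := by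
    rw [map_sub, h, sub_self]
  have h2 : z x hx - z y hy ∈ RingHom.ker (PadicInt.toZModPow (p := 2) M) := h1
  rw [PadicInt.ker_toZModPow, ← PadicInt.norm_le_pow_iff_mem_span_pow] at h2
  have h3 : ‖((x - y : ℚ) : ℚ_[2])‖ ≤ (2 : ℝ) ^ (-(M : ℤ)) := by
    have e : ((x - y : ℚ) : ℚ_[2]) = ((z x hx - z y hy : ℤ_[2]) : ℚ_[2]) := by
      rw [PadicInt.coe_sub]
      push_cast
      rfl
    rw [e, PadicInt.padic_norm_e_of_padicInt]
    exact_mod_cast h2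
  rw [Padic.eq_padicNorm] at h3
  have h4 : ((N (x - y) : ℚ) : ℝ) ≤ (((2 : ℚ) ^ (-(M : ℤ)) : ℚ) : ℝ) := by
    push_cast
    exact h3
  exact_mod_cast h4

theorem Ny_le {a b c : ℤ} {x y : ℚ} (h : (x, y) ∈ Pts a b c) (hx : N x ≤ 1) : N y ≤ 1 := by
  have he : y ^ 2 = x ^ 3 + a * x ^ 2 + b * x + c := h
  have h1 : ∀ (z : ℤ) (n : ℕ), N ((z : ℚ) * x ^ n) ≤ 1 := by
    intro z n
    rw [N_mul, N_pow]
    exact mul_le_one₀ (N_int z) (pow_nonneg (N_nonneg x) n) (pow_le_one₀ (N_nonneg x) hx)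
  have h2 : N (y ^ 2) ≤ 1 := by
    rw [he]
    refine (N_le_add _ _).trans (max_le ((N_le_add _ _).trans (max_le ((N_le_add _ _).trans
      (max_le ?_ (h1 _ 2))) ?_)) (N_int _))
    · rw [N_pow]; exact pow_le_one₀ (N_nonneg x) hx
    · have := h1 b 1
      rwa [pow_one] at this
  rw [N_pow] at h2
  by_contra hcon
  rw [not_le] at hcon
  nlinarith

/-- completeness -/
theorem exists_of_infinite {a b c : ℤ} (hD : disc a b c ≠ 0) (h : (Pts a b c).Infinite) :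
    ∃ x y : ℚ, (x, y) ∈ Pts a b c ∧ 1 < N x := by
  by_contra hcon
  push Not at hcon
  have hδ : 0 < N (disc a b c : ℚ) := by
    rcases (N_nonneg (disc a b c : ℚ)).lt_or_eq with h1 | h1
    · exact h1
    · exact absurd (padicNorm.zero_of_padicNorm_eq_zero h1.symm) (by exact_mod_cast hD)
  obtain ⟨M, hM⟩ := exists_pow_lt_of_lt_one (show (0 : ℚ) < N (disc a b c : ℚ) / 2 by positivity)
    (show (1 / 2 : ℚ) < 1 by norm_num)
  obtain ⟨g, hg⟩ := exists_map M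
  obtain ⟨p, hp, q, hq, hpq, he⟩ := h.exists_ne_map_eq_of_mapsTo
    (f := fun p : ℚ × ℚ => (g p.1, g p.2)) (t := Set.univ) (fun _ _ => Set.mem_univ _)
    (Set.toFinite _)
  have hp1 : N p.1 ≤ 1 := hcon p.1 p.2 hp
  have hq1 : N q.1 ≤ 1 := hcon q.1 q.2 hq
  have he1 : g p.1 = g q.1 := congrArg Prod.fst he
  have he2 : g p.2 = g q.2 := congrArg Prod.snd he
  have hpow : (2 : ℚ) ^ (-(M : ℤ)) = (1 / 2) ^ M := by
    rw [zpow_neg, zpow_natCast, one_div, inv_pow]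
  obtain ⟨x, y, h1, h2⟩ := of_close (ε := (1 / 2) ^ M) (x₁ := p.1) (y₁ := p.2) (x₂ := q.1)
    (y₂ := q.2) hp hq hpq hp1 hq1 (by positivity) (by linarith)
    (by rw [← hpow]; exact hg _ _ hp1 hq1 he1)
    (by rw [← hpow]; exact hg _ _ (Ny_le hp hp1) (Ny_le hq hq1) he2)
  exact absurd h2 (not_lt.2 (hcon x y h1))

end Pool.Agent.Run7.h250.QA
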