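import Pool.Agent.Run7.h250.QA.Crt
import Pool.Agent.Run7.h250.QA.Cmp

/-!
The partial algorithm for the curves `y² = x³ + a x² + b x + c`.
-/

set_option autoImplicit false

namespace Pool.Agent.Run7.h250.QA

open Pool.Agent.Helper446 Pool.Agent.W960.GA Pool.Agent.R395.CT

/-- the polynomial `y² - x³ - a x² - b x - c`, as the list of the coefficients of the powers of `x`,
which are polynomials in `y` -/
def poly (a b c : ℤ) : List (List ℤ) := [[-c, 0, 1], [-b], [-a], [-1]]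

theorem poly_inj {a b c a' b' c' : ℤ} (h : poly a b c = poly a' b' c') : a = a' ∧ b = b' ∧ c = c' := by
  unfold poly at h
  simp only [List.cons.injEq, neg_inj, and_true, true_and] at h
  exact ⟨h.2.2, h.2.1, h.1⟩

/-- there is a rational point whose first coordinate is not integral at two -/
def PInf (L : List (List ℤ)) : Prop :=
  ∃ w : (ℤ × ℤ × ℤ) × (ℤ × ℤ × ℤ × ℤ), ¬ w.2.2.1 = 0 ∧ ¬ w.2.2.2.2 = 0 ∧
    L = poly w.1.1 w.1.2.1 w.1.2.2 ∧
    8 * (w.2.2.1 * w.2.2.1 * w.2.2.1) * (w.2.2.2.1 * w.2.2.2.1) =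
      w.2.2.2.2 * w.2.2.2.2 * ((2 * w.2.1 + 1) * (2 * w.2.1 + 1) * (2 * w.2.1 + 1) +
        2 * w.1.1 * ((2 * w.2.1 + 1) * (2 * w.2.1 + 1)) * w.2.2.1 +
        4 * w.1.2.1 * (2 * w.2.1 + 1) * (w.2.2.1 * w.2.2.1) +
        8 * w.1.2.2 * (w.2.2.1 * w.2.2.1 * w.2.2.1))

/-- `L` is the polynomial `y² - (x³ - 4 m k² x² + 2 m² k⁴ x)` and `m` satisfies the criterion -/
def PFin (L : List (List ℤ)) : Prop :=
  ∃ w : ℕ × ℤ, Crit w.1 ∧ ¬ w.2 = 0 ∧
    L = poly (-(4 * (w.1 * (w.2 * w.2)))) (2 * ((w.1 * (w.2 * w.2)) * (w.1 * (w.2 * w.2)))) 0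

section

variable {α : Type} [Primcodable α]

attribute [local fun_prop] ciadd cisub cimul cineg cicast

@[local fun_prop] theorem cpoly {f g h : α → ℤ} (hf : Computable f) (hg : Computable g)
    (hh : Computable h) : Computable (fun x => poly (f x) (g x) (h x)) := by
  unfold poly
  have h1 : Computable fun x => [-(h x), 0, 1] :=
    Computable.list_cons.comp (by fun_prop) (Computable.const _)
  have h2 : Computable fun x => [-(g x)] :=
    Computable.list_cons.comp (by fun_prop) (Computable.const _)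
  have h3 : Computable fun x => [-(f x)] :=
    Computable.list_cons.comp (by fun_prop) (Computable.const _)
  exact Computable.list_cons.comp h1 (Computable.list_cons.comp h2
    (Computable.list_cons.comp h3 (Computable.const _)))

theorem re_PInf : REPred PInf := by
  unfold PInf
  refine RE.ex (p := fun (L : List (List ℤ)) (w : (ℤ × ℤ × ℤ) × (ℤ × ℤ × ℤ × ℤ)) =>
    ¬ w.2.2.1 = 0 ∧ ¬ w.2.2.2.2 = 0 ∧
    L = poly w.1.1 w.1.2.1 w.1.2.2 ∧
    8 * (w.2.2.1 * w.2.2.1 * w.2.2.1) * (w.2.2.2.1 * w.2.2.2.1) =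
      w.2.2.2.2 * w.2.2.2.2 * ((2 * w.2.1 + 1) * (2 * w.2.1 + 1) * (2 * w.2.1 + 1) +
        2 * w.1.1 * ((2 * w.2.1 + 1) * (2 * w.2.1 + 1)) * w.2.2.1 +
        4 * w.1.2.1 * (2 * w.2.1 + 1) * (w.2.2.1 * w.2.2.1) +
        8 * w.1.2.2 * (w.2.2.1 * w.2.2.1 * w.2.2.1))) ?_
  refine RE.of_comput (cp_and (cp_not (RE.cp_eq (by fun_prop) (by fun_prop)))
    (cp_and (cp_not (RE.cp_eq (by fun_prop) (by fun_prop)))
    (cp_and (RE.cp_eq (by fun_prop) (by fun_prop)) (RE.cp_eq (by fun_prop) (by fun_prop)))))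

theorem re_PFin : REPred PFin := by
  unfold PFin
  refine RE.ex (p := fun (L : List (List ℤ)) (w : ℕ × ℤ) =>
    Crit w.1 ∧ ¬ w.2 = 0 ∧
    L = poly (-(4 * (w.1 * (w.2 * w.2)))) (2 * ((w.1 * (w.2 * w.2)) * (w.1 * (w.2 * w.2)))) 0) ?_
  refine RE.of_comput (cp_and (cp_Crit (by fun_prop))
    (cp_and (cp_not (RE.cp_eq (by fun_prop) (by fun_prop)))
    (RE.cp_eq (by fun_prop) (by fun_prop))))

end

/-- from two searches to a partial algorithm -/
theorem exists_alg (P Q : List (List ℤ) → Prop) (hP : REPred P) (hQ : REPred Q) :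
    ∃ φ : List (List ℤ) →. Bool, Partrec φ ∧
    (∀ L, (φ L).Dom ↔ P L ∨ Q L) ∧
    ∀ L, ∀ r ∈ φ L, (r = true ∧ P L) ∨ (r = false ∧ Q L) := by
  have hr : REPred fun x : List (List ℤ) × Bool =>
      (x.2 = true ∧ P x.1) ∨ (x.2 = false ∧ Q x.1) := by
    refine RE.or (RE.and (RE.eq (by fun_prop) (by fun_prop)) (RE.comp hP (by fun_prop)))
      (RE.and (RE.eq (by fun_prop) (by fun_prop)) (RE.comp hQ (by fun_prop)))
  obtain ⟨f, hf, h1, h2⟩ := RE.uniformize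
    (r := fun (L : List (List ℤ)) (b : Bool) => (b = true ∧ P L) ∨ (b = false ∧ Q L)) hr
  refine ⟨f, hf, fun L => ?_, h2⟩
  rw [h1 L]
  constructor
  · rintro ⟨b, ⟨-, h⟩ | ⟨-, h⟩⟩
    · exact Or.inl h
    · exact Or.inr h
  · rintro (h | h)
    · exact ⟨true, Or.inl ⟨rfl, h⟩⟩
    · exact ⟨false, Or.inr ⟨rfl, h⟩⟩

/-! ### soundness and completeness -/

theorem pInf_sound {L : List (List ℤ)} (h : PInf L) :
    ∃ a b c : ℤ, L = poly a b c ∧ (Pts a b c).Infinite := by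
  obtain ⟨⟨⟨a, b, c⟩, u, Z, Y, T⟩, h1, h2, h3, h4⟩ := h
  simp only at h1 h2 h3 h4
  refine ⟨a, b, c, h3, ?_⟩
  have hZ : (Z : ℚ) ≠ 0 := by exact_mod_cast h1
  have hT : (T : ℚ) ≠ 0 := by exact_mod_cast h2
  refine infinite_of (x := (2 * u + 1) / (2 * Z)) (y := Y / T) ?_ ?_
  · show ((Y : ℚ) / T) ^ 2 = ((2 * (u : ℚ) + 1) / (2 * Z)) ^ 3 +
      a * ((2 * (u : ℚ) + 1) / (2 * Z)) ^ 2 + b * ((2 * (u : ℚ) + 1) / (2 * Z)) + c
    have h5 : (8 : ℚ) * (Z * Z * Z) * (Y * Y) =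
        T * T * ((2 * u + 1) * (2 * u + 1) * (2 * u + 1) +
        2 * a * ((2 * u + 1) * (2 * u + 1)) * Z +
        4 * b * (2 * u + 1) * (Z * Z) + 8 * c * (Z * Z * Z)) := by
      exact_mod_cast h4
    field_simp
    linear_combination h5
  · have h5 : N ((2 * u + 1 : ℤ) : ℚ) = 1 := by
      rw [N, padicNorm.int_eq_one_iff]
      omega
    have h6 : ((2 * (u : ℚ) + 1) / (2 * Z)) = ((2 * u + 1 : ℤ) : ℚ) / (2 * (Z : ℚ)) := by
      push_cast; rfl
    rw [h6, N_div, h5, N_mul, N_two]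
    have h7 := N_int Z
    have h8 : 0 < N (Z : ℚ) := by
      rcases (N_nonneg (Z : ℚ)).lt_or_eq with h | h
      · exact h
      · exact absurd (padicNorm.zero_of_padicNorm_eq_zero h.symm) hZ
    rw [one_lt_div (by positivity)]
    linarith

theorem pInf_of_point {a b c : ℤ} {x y : ℚ} (hp : (x, y) ∈ Pts a b c) (hx : 1 < N x) :
    PInf (poly a b c) := by
  have he : y ^ 2 = x ^ 3 + a * x ^ 2 + b * x + c := hp
  have hden : (2 : ℕ) ∣ x.den := by
    by_contra hcon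
    have h1 : N x = N (x.num : ℚ) / N (x.den : ℚ) := by
      rw [← N_div, Rat.num_div_den]
    have h2 : N (x.den : ℚ) = 1 := by
      rw [N, padicNorm.nat_eq_one_iff]
      exact hcon
    rw [h1, h2, div_one] at hx
    exact absurd hx (not_lt.2 (N_int _))
  have hnum : ¬ (2 : ℤ) ∣ x.num := by
    intro h
    have h1 : (2 : ℕ) ∣ Nat.gcd x.num.natAbs x.den :=
      Nat.dvd_gcd (by omega) hden
    rw [x.reduced] at h1
    omega
  obtain ⟨Z, hZ⟩ := hden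
  obtain ⟨u, hu⟩ : ∃ u : ℤ, x.num = 2 * u + 1 := ⟨x.num / 2, by omega⟩
  have hZ0 : (Z : ℤ) ≠ 0 := by
    have := x.den_nz
    omega
  have hT0 : (y.den : ℤ) ≠ 0 := by exact_mod_cast y.den_nz
  refine ⟨⟨⟨a, b, c⟩, u, (Z : ℤ), y.num, (y.den : ℤ)⟩, hZ0, hT0, rfl, ?_⟩
  simp only
  have hxq : x = (2 * (u : ℚ) + 1) / (2 * ((Z : ℤ) : ℚ)) := by
    rw [← Rat.num_div_den x, hu, hZ]
    push_cast
    rfl
  have hyq : y = (y.num : ℚ) / ((y.den : ℤ) : ℚ) := by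
    have := Rat.num_div_den y
    exact_mod_cast this.symm
  have hZq : (((Z : ℤ) : ℚ)) ≠ 0 := by exact_mod_cast hZ0
  have hTq : (((y.den : ℤ)) : ℚ) ≠ 0 := by exact_mod_cast hT0
  have h5 : (8 : ℚ) * (((Z : ℤ) : ℚ) * ((Z : ℤ) : ℚ) * ((Z : ℤ) : ℚ)) * ((y.num : ℚ) * y.num) =
        ((y.den : ℤ) : ℚ) * ((y.den : ℤ) : ℚ) * ((2 * u + 1) * (2 * u + 1) * (2 * u + 1) +
        2 * a * ((2 * u + 1) * (2 * u + 1)) * ((Z : ℤ) : ℚ) +
        4 * b * (2 * u + 1) * (((Z : ℤ) : ℚ) * ((Z : ℤ) : ℚ)) +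
        8 * c * (((Z : ℤ) : ℚ) * ((Z : ℤ) : ℚ) * ((Z : ℤ) : ℚ))) := by
    generalize hq : ((y.den : ℤ) : ℚ) = q at *
    generalize hz : (((Z : ℤ) : ℚ)) = z at *
    generalize hn : (y.num : ℚ) = n at *
    rw [hyq, hxq] at he
    field_simp at he
    linear_combination he
  exact_mod_cast h5

end Pool.Agent.Run7.h250.QA
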