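import Pool.Agent.R395.CT.Comp

/-!
A criterion in terms of bounded searches, and its computability.
-/

set_option autoImplicit false

namespace Pool.Agent.Run7.h250.QA

open Finset Pool.Agent.Helper446 Pool.Agent.W960.GA Pool.Agent.R395.CT

/-- `q` is not a square modulo `p` -/
def NQ (p q : ℕ) : Prop := ¬ ∃ x < p, x * x % p = q % p

/-- the primes `q` which count -/
def Cnt (m d p q : ℕ) : Prop := q.Prime ∧ q ∣ m ∧ (¬ (q ∣ d ↔ p ∣ d)) ∧ NQ p q

open Classical in
/-- the number of these primes -/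
noncomputable def cnt (m d p : ℕ) : ℕ := ((range (m + 1)).filter (Cnt m d p)).card

/-- the correction -/
def Fl (p d : ℕ) : Prop := p ∣ d ∧ (p % 16 = 7 ∨ p % 16 = 9)

/-- `d` gives a vector in the kernel -/
def Ker (m d : ℕ) : Prop := ∀ p < m + 1, (p.Prime ∧ p ∣ m ∧ (p % 8 = 1 ∨ p % 8 = 7)) →
  (Fl p d ∧ cnt m d p % 2 = 1) ∨ (¬ Fl p d ∧ cnt m d p % 2 = 0)

/-- the criterion: `m` is odd and squarefree and there is no vector in the kernel but zero -/
def Crit (m : ℕ) : Prop := (¬ m = 0 ∧ m % 2 = 1 ∧ ∀ k < m + 1, (k.Prime → ¬ k * k ∣ m)) ∧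
  ∀ d < m + 1, (d ∣ m ∧ (∀ q < d + 1, (q.Prime ∧ q ∣ d → q % 8 = 1 ∨ q % 8 = 7)) ∧ Ker m d) → d = 1

section
variable {α : Type} [Primcodable α]

open Classical in
theorem c_count {P : α → ℕ → Prop} (hP : ComputablePred fun x : α × ℕ => P x.1 x.2) {n : α → ℕ}
    (hn : Computable n) : Computable fun x => ((range (n x)).filter (P x)).card := by
  obtain ⟨D, hD⟩ := hP
  have h1 : Computable₂ fun (x : α) (y : ℕ × ℕ) =>
      cond (@decide (P x y.1) (D (x, y.1))) (y.2 + 1) y.2 := by
    refine Computable.cond ?_ ?_ ?_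
    · exact hD.comp (Computable.pair Computable.fst (Computable.fst.comp Computable.snd))
    · exact Computable.succ.comp (Computable.snd.comp Computable.snd)
    · exact Computable.snd.comp Computable.snd
  have h2 := Computable.nat_rec hn (Computable.const 0) h1
  refine h2.of_eq fun x => ?_
  induction n x with
  | zero => simp
  | succ k ih =>
    simp only
    rw [ih, range_add_one, filter_insert]
    by_cases h : P x k
    · rw [if_pos h, card_insert_of_notMem (by simp)]
      have : @decide (P x k) (D (x, k)) = true := @decide_eq_true _ (D (x, k)) h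
      rw [this]; rfl
    · rw [if_neg h]
      have : @decide (P x k) (D (x, k)) = false := @decide_eq_false _ (D (x, k)) h
      rw [this]; rfl

attribute [local fun_prop] cmod

theorem cp_NQ {f g : α → ℕ} (hf : Computable f) (hg : Computable g) :
    ComputablePred fun x => NQ (f x) (g x) := by
  unfold NQ
  refine cp_not (cp_ex_lt (p := fun x y => y * y % f x = g x % f x) ?_ hf)
  exact RE.cp_eq (by fun_prop) (by fun_prop)

theorem cp_Cnt {m d p q : α → ℕ} (hm : Computable m) (hd : Computable d) (hp : Computable p)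
    (hq : Computable q) : ComputablePred fun x => Cnt (m x) (d x) (p x) (q x) := by
  unfold Cnt
  refine cp_and (cp_prime hq) (cp_and (cp_dvd hq hm) (cp_and (cp_not (cp_iff (cp_dvd hq hd)
    (cp_dvd hp hd))) (cp_NQ hp hq)))

theorem c_cnt {m d p : α → ℕ} (hm : Computable m) (hd : Computable d) (hp : Computable p) :
    Computable fun x => cnt (m x) (d x) (p x) := by
  unfold cnt
  refine c_count (P := fun x q => Cnt (m x) (d x) (p x) q) ?_ (by fun_prop)
  exact cp_Cnt (by fun_prop) (by fun_prop) (by fun_prop) (by fun_prop)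

theorem cp_Fl {p d : α → ℕ} (hp : Computable p) (hd : Computable d) :
    ComputablePred fun x => Fl (p x) (d x) := by
  unfold Fl
  refine cp_and (cp_dvd hp hd) (cp_or (RE.cp_eq (by fun_prop) (by fun_prop))
    (RE.cp_eq (by fun_prop) (by fun_prop)))

theorem cp_Ker {m d : α → ℕ} (hm : Computable m) (hd : Computable d) :
    ComputablePred fun x => Ker (m x) (d x) := by
  unfold Ker
  refine cp_all_lt (p := fun x p => (p.Prime ∧ p ∣ m x ∧ (p % 8 = 1 ∨ p % 8 = 7)) →
    (Fl p (d x) ∧ cnt (m x) (d x) p % 2 = 1) ∨ (¬ Fl p (d x) ∧ cnt (m x) (d x) p % 2 = 0)) ?_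
    (by fun_prop)
  have hm' : Computable fun x : α × ℕ => m x.1 := by fun_prop
  have hd' : Computable fun x : α × ℕ => d x.1 := by fun_prop
  have hp' : Computable fun x : α × ℕ => x.2 := by fun_prop
  have hc := c_cnt hm' hd' hp'
  refine cp_imp (cp_and (cp_prime hp') (cp_and (cp_dvd hp' hm') (cp_or
    (RE.cp_eq (by fun_prop) (by fun_prop)) (RE.cp_eq (by fun_prop) (by fun_prop))))) ?_
  refine cp_or (cp_and (cp_Fl hp' hd') (RE.cp_eq ?_ (by fun_prop)))
    (cp_and (cp_not (cp_Fl hp' hd')) (RE.cp_eq ?_ (by fun_prop)))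
  · exact cmod hc (Computable.const 2)
  · exact cmod hc (Computable.const 2)

theorem cp_Crit {m : α → ℕ} (hm : Computable m) : ComputablePred fun x => Crit (m x) := by
  unfold Crit
  refine cp_and (cp_and (cp_not (RE.cp_eq (by fun_prop) (by fun_prop))) (cp_and
    (RE.cp_eq (by fun_prop) (by fun_prop)) ?_)) ?_
  · refine cp_all_lt (p := fun x k => (k.Prime → ¬ k * k ∣ m x)) ?_ (by fun_prop)
    exact cp_imp (cp_prime (by fun_prop)) (cp_not (cp_dvd (by fun_prop) (by fun_prop)))
  · refine cp_all_lt (p := fun x d => (d ∣ m x ∧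
      (∀ q < d + 1, (q.Prime ∧ q ∣ d → q % 8 = 1 ∨ q % 8 = 7)) ∧ Ker (m x) d) → d = 1) ?_
      (by fun_prop)
    refine cp_imp (cp_and (cp_dvd (by fun_prop) (by fun_prop)) (cp_and ?_
      (cp_Ker (by fun_prop) (by fun_prop)))) (RE.cp_eq (by fun_prop) (by fun_prop))
    refine cp_all_lt (p := fun (x : α × ℕ) q =>
      (q.Prime ∧ q ∣ x.2 → q % 8 = 1 ∨ q % 8 = 7)) ?_ (by fun_prop)
    exact cp_imp (cp_and (cp_prime (by fun_prop)) (cp_dvd (by fun_prop) (by fun_prop)))
      (cp_or (RE.cp_eq (by fun_prop) (by fun_prop)) (RE.cp_eq (by fun_prop) (by fun_prop)))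

end

end Pool.Agent.Run7.h250.QA
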