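import Pool.Agent.Run7.h250.QA.Crt

/-!
The criterion says that a matrix has trivial kernel.
-/

set_option autoImplicit false

namespace Pool.Agent.Run7.h250.QA

open Finset

open Classical in
/-- `1` if `n` is not a square modulo `p` -/
noncomputable def nr (p n : ℕ) : ZMod 2 := if IsSquare (n : ZMod p) then 0 else 1

/-- the correction -/
def f16 (p : ℕ) : ZMod 2 := if p % 16 = 7 ∨ p % 16 = 9 then 1 else 0

/-- a function set to zero off the primes `1`, `7` modulo `8` -/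
def cv (x : ℕ → ZMod 2) (q : ℕ) : ZMod 2 := if q % 8 = 1 ∨ q % 8 = 7 then x q else 0

/-- the equation at `p` -/
def Eqn (m : ℕ) (x : ℕ → ZMod 2) (p : ℕ) : Prop :=
  ∑ q ∈ m.primeFactors, nr p q * (cv x q + x p) + f16 p * x p = 0

/-- the matrix has trivial kernel -/
def Ns (m : ℕ) : Prop := ∀ x : ℕ → ZMod 2,
  (∀ p ∈ m.primeFactors, (p % 8 = 1 ∨ p % 8 = 7) → Eqn m x p) →
  ∀ p ∈ m.primeFactors, (p % 8 = 1 ∨ p % 8 = 7) → x p = 0

theorem nq_iff {p : ℕ} (hp : 0 < p) (q : ℕ) : NQ p q ↔ ¬ IsSquare (q : ZMod p) := by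
  have : NeZero p := ⟨hp.ne'⟩
  unfold NQ
  rw [not_iff_not]
  constructor
  · rintro ⟨x, -, hx⟩
    refine ⟨(x : ZMod p), ?_⟩
    have h1 : ((x * x : ℕ) : ZMod p) = ((q : ℕ) : ZMod p) := (ZMod.natCast_eq_natCast_iff' _ _ _).2 hx
    rw [← h1]
    push_cast
    ring
  · rintro ⟨y, hy⟩
    refine ⟨y.val, y.val_lt, ?_⟩
    rw [← ZMod.natCast_eq_natCast_iff']
    push_cast
    rw [ZMod.natCast_zmod_val, hy]

open Classical in
theorem nr_eq {p : ℕ} (hp : 0 < p) (q : ℕ) : nr p q = if NQ p q then 1 else 0 := by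
  unfold nr
  by_cases h : IsSquare (q : ZMod p)
  · rw [if_pos h, if_neg (fun h2 => (nq_iff hp q).1 h2 h)]
  · rw [if_neg h, if_pos ((nq_iff hp q).2 h)]

/-- the indicator of the primes dividing `d` -/
def xd (d q : ℕ) : ZMod 2 := if q ∣ d then 1 else 0

open Classical in
theorem sum_eq {m d p : ℕ} (hm : m ≠ 0) (hp : 0 < p)
    (hd8 : ∀ q, q.Prime → q ∣ d → q % 8 = 1 ∨ q % 8 = 7) :
    ∑ q ∈ m.primeFactors, nr p q * (cv (xd d) q + xd d p) = (cnt m d p : ZMod 2) := by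
  have h1 : ∀ q ∈ m.primeFactors, nr p q * (cv (xd d) q + xd d p) =
      if ((¬ (q ∣ d ↔ p ∣ d)) ∧ NQ p q) then 1 else 0 := by
    intro q hq
    have hqp := Nat.prime_of_mem_primeFactors hq
    have h2 : cv (xd d) q = xd d q := by
      unfold cv
      split_ifs with h
      · rfl
      · unfold xd
        rw [if_neg fun h3 => h (hd8 q hqp h3)]
    rw [h2, nr_eq hp]
    unfold xd
    by_cases h3 : q ∣ d <;> by_cases h4 : p ∣ d <;> by_cases h5 : NQ p q <;>
      simp [h3, h4, h5]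
    decide
  rw [sum_congr rfl h1, sum_ite, sum_const_zero, add_zero, sum_const, nsmul_eq_mul, mul_one]
  unfold cnt
  congr 2
  ext q
  rw [mem_filter, mem_filter, mem_range, Nat.mem_primeFactors]
  unfold Cnt
  constructor
  · rintro ⟨⟨h2, h3, h4⟩, h5, h6⟩
    exact ⟨Nat.lt_succ_of_le (Nat.le_of_dvd (Nat.pos_of_ne_zero hm) h3), h2, h3, h5, h6⟩
  · rintro ⟨-, h2, h3, h5, h6⟩
    exact ⟨⟨h2, h3, hm⟩, h5, h6⟩

open Classical in
theorem ker_iff {m d : ℕ} (hm : m ≠ 0)
    (hd8 : ∀ q, q.Prime → q ∣ d → q % 8 = 1 ∨ q % 8 = 7) :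
    Ker m d ↔ ∀ p ∈ m.primeFactors, (p % 8 = 1 ∨ p % 8 = 7) → Eqn m (xd d) p := by
  have key : ∀ p : ℕ, p.Prime → (Eqn m (xd d) p ↔
      (Fl p d ∧ cnt m d p % 2 = 1) ∨ (¬ Fl p d ∧ cnt m d p % 2 = 0)) := by
    intro p hp
    unfold Eqn
    rw [sum_eq hm hp.pos hd8]
    have h1 : f16 p * xd d p = if Fl p d then 1 else 0 := by
      unfold f16 xd Fl
      by_cases h2 : p % 16 = 7 ∨ p % 16 = 9 <;> by_cases h3 : p ∣ d <;> simp [h2, h3]
    rw [h1]
    have h2 : ((cnt m d p : ℕ) : ZMod 2) = 0 ↔ cnt m d p % 2 = 0 := by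
      rw [ZMod.natCast_eq_zero_iff, Nat.dvd_iff_mod_eq_zero]
    have h3 : ((cnt m d p : ℕ) : ZMod 2) + 1 = 0 ↔ cnt m d p % 2 = 1 := by
      have : ((cnt m d p : ℕ) : ZMod 2) + 1 = ((cnt m d p + 1 : ℕ) : ZMod 2) := by push_cast; rfl
      rw [this, ZMod.natCast_eq_zero_iff, Nat.dvd_iff_mod_eq_zero]
      omega
    by_cases h4 : Fl p d
    · rw [if_pos h4, h3]
      exact ⟨fun h => Or.inl ⟨h4, h⟩, fun h => h.elim (fun h => h.2) fun h => absurd h4 h.1⟩
    · rw [if_neg h4, add_zero, h2]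
      exact ⟨fun h => Or.inr ⟨h4, h⟩, fun h => h.elim (fun h => absurd h.1 h4) fun h => h.2⟩
  unfold Ker
  constructor
  · intro h p hp hp8
    have hpp := Nat.prime_of_mem_primeFactors hp
    have hpm := Nat.dvd_of_mem_primeFactors hp
    exact (key p hpp).2 (h p (Nat.lt_succ_of_le (Nat.le_of_dvd (Nat.pos_of_ne_zero hm) hpm))
      ⟨hpp, hpm, hp8⟩)
  · rintro h p - ⟨hpp, hpm, hp8⟩
    exact (key p hpp).1 (h p (Nat.mem_primeFactors.2 ⟨hpp, hpm, hm⟩) hp8)

open Classical in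
theorem crit_iff (m : ℕ) : Crit m ↔ Squarefree m ∧ m % 2 = 1 ∧ Ns m := by
  unfold Crit
  constructor
  · rintro ⟨⟨hm, hm2, hsq⟩, h⟩
    have hpos := Nat.pos_of_ne_zero hm
    refine ⟨?_, hm2, ?_⟩
    · rw [Nat.squarefree_iff_prime_squarefree]
      intro k hk hkm
      refine hsq k (Nat.lt_succ_of_le ?_) hk hkm
      exact (Nat.le_mul_self k).trans (Nat.le_of_dvd hpos hkm)
    · intro x hx p hp hp8
      -- the divisor belonging to `x`
      obtain ⟨T, hT⟩ : ∃ T : Finset ℕ, T = m.primeFactors.filter fun q =>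
        (q % 8 = 1 ∨ q % 8 = 7) ∧ x q = 1 := ⟨_, rfl⟩
      have hTm : T ⊆ m.primeFactors := by rw [hT]; exact filter_subset _ _
      obtain ⟨d, hd⟩ : ∃ d : ℕ, d = ∏ q ∈ T, q := ⟨_, rfl⟩
      have hdm : d ∣ m := by
        rw [hd]
        exact (prod_dvd_prod_of_subset _ _ _ hTm).trans (Nat.prod_primeFactors_dvd m)
      have hqd : ∀ q : ℕ, q.Prime → (q ∣ d ↔ q ∈ T) := by
        intro q hq
        rw [hd]
        constructor
        · intro h1
          obtain ⟨r, hr, hqr⟩ := (hq.prime.dvd_finsetProd_iff _).1 h1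
          have := Nat.prime_of_mem_primeFactors (hTm hr)
          rw [(Nat.prime_dvd_prime_iff_eq hq this).1 hqr]
          exact hr
        · intro h1
          exact dvd_prod_of_mem _ h1
      have hd8 : ∀ q, q.Prime → q ∣ d → q % 8 = 1 ∨ q % 8 = 7 := by
        intro q hq h1
        have h2 := (hqd q hq).1 h1
        rw [hT, mem_filter] at h2
        exact h2.2.1
      have hz : ∀ z : ZMod 2, z = 0 ∨ z = 1 := by decide
      have hxx : ∀ q ∈ m.primeFactors, (q % 8 = 1 ∨ q % 8 = 7) → xd d q = x q := by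
        intro q hq hq8
        unfold xd
        by_cases h1 : q ∣ d
        · have h2 := (hqd q (Nat.prime_of_mem_primeFactors hq)).1 h1
          rw [hT, mem_filter] at h2
          rw [if_pos h1, h2.2.2]
        · rw [if_neg h1]
          rcases hz (x q) with h2 | h2
          · exact h2.symm
          · exact absurd ((hqd q (Nat.prime_of_mem_primeFactors hq)).2
              (by rw [hT, mem_filter]; exact ⟨hq, hq8, h2⟩)) h1
      have hK : Ker m d := by
        rw [ker_iff hm hd8]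
        intro r hr hr8
        have h1 := hx r hr hr8
        unfold Eqn at h1 ⊢
        rw [hxx r hr hr8]
        rw [← h1]
        congr 1
        refine sum_congr rfl fun q hq => ?_
        congr 2
        unfold cv
        split_ifs with h2
        · exact hxx q hq h2
        · rfl
      have h1 := h d (Nat.lt_succ_of_le (Nat.le_of_dvd hpos hdm))
        ⟨hdm, fun q _ hq => hd8 q hq.1 hq.2, hK⟩
      rw [← hxx p hp hp8]
      unfold xd
      rw [h1, if_neg]
      exact (Nat.prime_of_mem_primeFactors hp).one_lt.ne' ∘ Nat.dvd_one.1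
  · rintro ⟨hsq, hm2, h⟩
    have hm : m ≠ 0 := hsq.ne_zero
    have hpos := Nat.pos_of_ne_zero hm
    refine ⟨⟨hm, hm2, fun k _ hk hkm => ?_⟩, ?_⟩
    · exact (Nat.squarefree_iff_prime_squarefree.1 hsq) k hk hkm
    · rintro d - ⟨hdm, hd8, hK⟩
      have hd0 : d ≠ 0 := by
        rintro rfl
        exact hm (Nat.eq_zero_of_zero_dvd hdm)
      have hd8' : ∀ q, q.Prime → q ∣ d → q % 8 = 1 ∨ q % 8 = 7 := fun q hq hqd =>
        hd8 q (Nat.lt_succ_of_le (Nat.le_of_dvd (Nat.pos_of_ne_zero hd0) hqd)) ⟨hq, hqd⟩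
      have h1 := h (xd d) ((ker_iff hm hd8').1 hK)
      by_contra hne
      obtain ⟨q, hq, hqd⟩ := Nat.exists_prime_and_dvd hne
      have h2 := h1 q (Nat.mem_primeFactors.2 ⟨hq, hqd.trans hdm, hm⟩) (hd8' q hq hqd)
      unfold xd at h2
      rw [if_pos hqd] at h2
      exact absurd h2 (by decide)

end Pool.Agent.Run7.h250.QA
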