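import Pool.Agent.Run7.h250.QA.Alg
import Pool.Agent.Run7.h250.QA.Ns

/-!
The criterion for the curves with full two-torsion and a cyclic isogeny of degree four.
-/

set_option autoImplicit false

namespace Pool.Agent.Run7.h250.QA

open Finset Pool.Agent.Helper446 Pool.Agent.W960.GA Pool.Agent.R395.CT

/-- `-q` is not a square modulo `p` -/
def NN (p q : ℕ) : Prop := ¬ ∃ x < p, (x * x + q) % p = 0

/-- squarefree -/
def Sf (m : ℕ) : Prop := ¬ m = 0 ∧ ∀ k < m + 1, (k.Prime → ¬ k * k ∣ m)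

/-- the pairs -/
def PrN (U V : ℕ) : Prop := Nat.Coprime U V ∧ ¬ U = 0 ∧ ¬ V = 0 ∧ ¬ U * U = V * V

/-- `m` is admissible -/
def AdP (U V m : ℕ) : Prop := Sf m ∧ m % 4 = 3 ∧
  (∀ l < U * U + V * V + 1, (l.Prime ∧ ¬ l = 2 →
    (l ∣ U * V → NQ l m) ∧ (U * U % l = V * V % l → NN l m))) ∧
  ((U * V % 2 = 1 ∧ (m % 8 = 3 ∨ U * U % 32 = (V * V + 16) % 32)) ∨ U * V % 4 = 2)

/-- `-m` is admissible -/
def AdN (U V m : ℕ) : Prop := Sf m ∧ m % 4 = 3 ∧
  (∀ l < U * U + V * V + 1, (l.Prime ∧ ¬ l = 2 →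
    (l ∣ U * V → NN l m) ∧ (U * U % l = V * V % l → NQ l m))) ∧
  ((U * V % 2 = 1 ∧ U * U % 16 = (V * V + 8) % 16) ∨ (U * V % 2 = 0 ∧ (m % 8 = 3 ∨ U * V % 8 = 4)))

/-- `b` is a square modulo the primes of `c` -/
def Rs (b c : ℕ) : Prop := ∀ p < c + 1, (p.Prime ∧ p ∣ c → ¬ NQ p b)

/-- only the trivial factorizations are solvable -/
def QcC (m : ℕ) : Prop := ∀ b < m + 1, ∀ c < m + 1, (b * c = m ∧ Rs b c ∧ Rs c b → b = 1 ∨ c = 1)

/-- the polynomial `y² - x (x + U² d) (x + V² d)` -/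
def Lf (U V : ℕ) (d : ℤ) : List (List ℤ) :=
  poly (((U : ℤ) * U + V * V) * d) ((U : ℤ) * V * (U * V) * (d * d)) 0

/-- the certificate of finiteness -/
def PFin2 (L : List (List ℤ)) : Prop :=
  ∃ w : (ℕ × ℕ) × (ℕ × ℤ), (PrN w.1.1 w.1.2 ∧ ¬ w.2.2 = 0 ∧ QcC w.2.1) ∧
    ((AdP w.1.1 w.1.2 w.2.1 ∧ L = Lf w.1.1 w.1.2 (w.2.1 * (w.2.2 * w.2.2))) ∨
      (AdN w.1.1 w.1.2 w.2.1 ∧ L = Lf w.1.1 w.1.2 (-(w.2.1 * (w.2.2 * w.2.2)))))

/-- the certificate of finiteness for the first family -/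
def PFin1 (L : List (List ℤ)) : Prop :=
  ∃ w : ℕ × ℤ, Crit w.1 ∧ ¬ w.2 = 0 ∧
    (L = poly (-(4 * (w.1 * (w.2 * w.2)))) (2 * ((w.1 * (w.2 * w.2)) * (w.1 * (w.2 * w.2)))) 0 ∨
      L = poly (8 * (w.1 * (w.2 * w.2))) (8 * ((w.1 * (w.2 * w.2)) * (w.1 * (w.2 * w.2)))) 0)

section

variable {α : Type} [Primcodable α]

attribute [local fun_prop] ciadd cisub cimul cineg cicast cmod cpoly

theorem cp_NN {f g : α → ℕ} (hf : Computable f) (hg : Computable g) :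
    ComputablePred fun x => NN (f x) (g x) := by
  unfold NN
  refine cp_not (cp_ex_lt (p := fun x y => (y * y + g x) % f x = 0) ?_ hf)
  exact RE.cp_eq (by fun_prop) (by fun_prop)

theorem cp_Sf {f : α → ℕ} (hf : Computable f) : ComputablePred fun x => Sf (f x) := by
  unfold Sf
  refine cp_and (cp_not (RE.cp_eq (by fun_prop) (by fun_prop))) ?_
  refine cp_all_lt (p := fun x k => (k.Prime → ¬ k * k ∣ f x)) ?_ (by fun_prop)
  exact cp_imp (cp_prime (by fun_prop)) (cp_not (cp_dvd (by fun_prop) (by fun_prop)))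

theorem cp_PrN {f g : α → ℕ} (hf : Computable f) (hg : Computable g) :
    ComputablePred fun x => PrN (f x) (g x) := by
  unfold PrN
  exact cp_and (cp_cop hf hg) (cp_and (cp_not (RE.cp_eq (by fun_prop) (by fun_prop)))
    (cp_and (cp_not (RE.cp_eq (by fun_prop) (by fun_prop)))
      (cp_not (RE.cp_eq (by fun_prop) (by fun_prop)))))

theorem cp_AdP {f g h : α → ℕ} (hf : Computable f) (hg : Computable g) (hh : Computable h) :
    ComputablePred fun x => AdP (f x) (g x) (h x) := by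
  unfold AdP
  refine cp_and (cp_Sf hh) (cp_and (RE.cp_eq (by fun_prop) (by fun_prop)) (cp_and ?_ ?_))
  · refine cp_all_lt (p := fun x l => (l.Prime ∧ ¬ l = 2 →
      (l ∣ f x * g x → NQ l (h x)) ∧ (f x * f x % l = g x * g x % l → NN l (h x)))) ?_
      (by fun_prop)
    refine cp_imp (cp_and (cp_prime (by fun_prop))
      (cp_not (RE.cp_eq (by fun_prop) (by fun_prop)))) ?_
    refine cp_and (cp_imp (cp_dvd (by fun_prop) (by fun_prop)) (cp_NQ (by fun_prop) (by fun_prop)))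
      (cp_imp (RE.cp_eq (by fun_prop) (by fun_prop)) (cp_NN (by fun_prop) (by fun_prop)))
  · exact cp_or (cp_and (RE.cp_eq (by fun_prop) (by fun_prop)) (cp_or
      (RE.cp_eq (by fun_prop) (by fun_prop)) (RE.cp_eq (by fun_prop) (by fun_prop))))
      (RE.cp_eq (by fun_prop) (by fun_prop))

theorem cp_AdN {f g h : α → ℕ} (hf : Computable f) (hg : Computable g) (hh : Computable h) :
    ComputablePred fun x => AdN (f x) (g x) (h x) := by
  unfold AdN
  refine cp_and (cp_Sf hh) (cp_and (RE.cp_eq (by fun_prop) (by fun_prop)) (cp_and ?_ ?_))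
  · refine cp_all_lt (p := fun x l => (l.Prime ∧ ¬ l = 2 →
      (l ∣ f x * g x → NN l (h x)) ∧ (f x * f x % l = g x * g x % l → NQ l (h x)))) ?_
      (by fun_prop)
    refine cp_imp (cp_and (cp_prime (by fun_prop))
      (cp_not (RE.cp_eq (by fun_prop) (by fun_prop)))) ?_
    refine cp_and (cp_imp (cp_dvd (by fun_prop) (by fun_prop)) (cp_NN (by fun_prop) (by fun_prop)))
      (cp_imp (RE.cp_eq (by fun_prop) (by fun_prop)) (cp_NQ (by fun_prop) (by fun_prop)))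
  · exact cp_or (cp_and (RE.cp_eq (by fun_prop) (by fun_prop))
      (RE.cp_eq (by fun_prop) (by fun_prop)))
      (cp_and (RE.cp_eq (by fun_prop) (by fun_prop)) (cp_or (RE.cp_eq (by fun_prop) (by fun_prop))
        (RE.cp_eq (by fun_prop) (by fun_prop))))

theorem cp_Rs {f g : α → ℕ} (hf : Computable f) (hg : Computable g) :
    ComputablePred fun x => Rs (f x) (g x) := by
  unfold Rs
  refine cp_all_lt (p := fun x p => (p.Prime ∧ p ∣ g x → ¬ NQ p (f x))) ?_ (by fun_prop)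
  exact cp_imp (cp_and (cp_prime (by fun_prop)) (cp_dvd (by fun_prop) (by fun_prop)))
    (cp_not (cp_NQ (by fun_prop) (by fun_prop)))

theorem cp_QcC {f : α → ℕ} (hf : Computable f) : ComputablePred fun x => QcC (f x) := by
  unfold QcC
  refine cp_all_lt (p := fun x b => ∀ c < f x + 1, (b * c = f x ∧ Rs b c ∧ Rs c b →
    b = 1 ∨ c = 1)) ?_ (by fun_prop)
  refine cp_all_lt (p := fun (x : α × ℕ) c => (x.2 * c = f x.1 ∧ Rs x.2 c ∧ Rs c x.2 →
    x.2 = 1 ∨ c = 1)) ?_ (by fun_prop)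
  refine cp_imp (cp_and (RE.cp_eq (by fun_prop) (by fun_prop)) (cp_and
    (cp_Rs (by fun_prop) (by fun_prop)) (cp_Rs (by fun_prop) (by fun_prop)))) ?_
  exact cp_or (RE.cp_eq (by fun_prop) (by fun_prop)) (RE.cp_eq (by fun_prop) (by fun_prop))

@[local fun_prop] theorem cLf {f g : α → ℕ} {h : α → ℤ} (hf : Computable f) (hg : Computable g)
    (hh : Computable h) : Computable (fun x => Lf (f x) (g x) (h x)) := by
  unfold Lf
  fun_prop

theorem re_PFin2 : REPred PFin2 := by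
  unfold PFin2
  refine RE.ex (p := fun (L : List (List ℤ)) (w : (ℕ × ℕ) × (ℕ × ℤ)) =>
    (PrN w.1.1 w.1.2 ∧ ¬ w.2.2 = 0 ∧ QcC w.2.1) ∧
    ((AdP w.1.1 w.1.2 w.2.1 ∧ L = Lf w.1.1 w.1.2 (w.2.1 * (w.2.2 * w.2.2))) ∨
      (AdN w.1.1 w.1.2 w.2.1 ∧ L = Lf w.1.1 w.1.2 (-(w.2.1 * (w.2.2 * w.2.2)))))) ?_
  refine RE.of_comput (cp_and (cp_and (cp_PrN (by fun_prop) (by fun_prop)) (cp_and
    (cp_not (RE.cp_eq (by fun_prop) (by fun_prop))) (cp_QcC (by fun_prop)))) (cp_or ?_ ?_))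
  · exact cp_and (cp_AdP (by fun_prop) (by fun_prop) (by fun_prop))
      (RE.cp_eq (by fun_prop) (by fun_prop))
  · exact cp_and (cp_AdN (by fun_prop) (by fun_prop) (by fun_prop))
      (RE.cp_eq (by fun_prop) (by fun_prop))

theorem re_PFin1 : REPred PFin1 := by
  unfold PFin1
  refine RE.ex (p := fun (L : List (List ℤ)) (w : ℕ × ℤ) =>
    Crit w.1 ∧ ¬ w.2 = 0 ∧
    (L = poly (-(4 * (w.1 * (w.2 * w.2)))) (2 * ((w.1 * (w.2 * w.2)) * (w.1 * (w.2 * w.2)))) 0 ∨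
      L = poly (8 * (w.1 * (w.2 * w.2))) (8 * ((w.1 * (w.2 * w.2)) * (w.1 * (w.2 * w.2)))) 0)) ?_
  refine RE.of_comput (cp_and (cp_Crit (by fun_prop))
    (cp_and (cp_not (RE.cp_eq (by fun_prop) (by fun_prop)))
    (cp_or (RE.cp_eq (by fun_prop) (by fun_prop)) (RE.cp_eq (by fun_prop) (by fun_prop)))))

end

end Pool.Agent.Run7.h250.QA
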