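import Mathlib

/-!
Rational points on `y² = x³ + a x² + b x + c`, `a, b, c` integers, whose first coordinate is not
integral at two: the doubling map makes the first coordinate less and less integral.
-/

set_option autoImplicit false

namespace Pool.Agent.Run7.h250.QA

/-- the points of `y² = x³ + a x² + b x + c` -/
def Pts (a b c : ℤ) : Set (ℚ × ℚ) := {p | p.2 ^ 2 = p.1 ^ 3 + a * p.1 ^ 2 + b * p.1 + c}

/-- the absolute value at two -/
noncomputable abbrev N (x : ℚ) : ℚ := padicNorm 2 x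

theorem N_int (z : ℤ) : N (z : ℚ) ≤ 1 := padicNorm.of_int z

theorem N_two : N (2 : ℚ) = 1 / 2 := by
  have := padicNorm.padicNorm_p (p := 2) (by norm_num)
  rw [one_div]
  exact_mod_cast this

theorem N_mul (x y : ℚ) : N (x * y) = N x * N y := padicNorm.mul x y

theorem N_div (x y : ℚ) : N (x / y) = N x / N y := padicNorm.div x y

theorem N_pow (x : ℚ) (n : ℕ) : N (x ^ n) = N x ^ n := by
  induction n with
  | zero => simp [N]
  | succ n ih => rw [pow_succ, N_mul, ih, pow_succ]

theorem N_nonneg (x : ℚ) : 0 ≤ N x := padicNorm.nonneg x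

/-- the bigger summand decides -/
theorem N_add {x y : ℚ} (h : N y < N x) : N (x + y) = N x := by
  have h1 := padicNorm.add_eq_max_of_ne (p := 2) (q := x) (r := y) (ne_of_gt h)
  rw [N, h1, max_eq_left h.le]

theorem N_le_add (x y : ℚ) : N (x + y) ≤ max (N x) (N y) := padicNorm.nonarchimedean

/-- doubling -/
theorem double {a b c : ℤ} {x y : ℚ} (hp : (x, y) ∈ Pts a b c) (hx : 1 < N x) :
    ∃ X Y : ℚ, (X, Y) ∈ Pts a b c ∧ N X = 4 * N x := by
  have he : y ^ 2 = x ^ 3 + a * x ^ 2 + b * x + c := hp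
  have ha := N_int a
  have hb := N_int b
  have hc := N_int c
  have hx0 : 0 < N x := by linarith
  -- the absolute value of `y`
  have hy : N y ^ 2 = N x ^ 3 := by
    have h1 : y ^ 2 = x ^ 3 + (a * x ^ 2 + (b * x + c)) := by rw [he]; ring
    have h2 : N (b * x + c) ≤ N x := by
      refine (N_le_add _ _).trans (max_le ?_ ?_)
      · rw [N_mul]; nlinarith
      · linarith
    have h3 : N (a * x ^ 2 + (b * x + c)) ≤ N x ^ 2 := by
      refine (N_le_add _ _).trans (max_le ?_ ?_)
      · rw [N_mul, N_pow]; nlinarith [sq_nonneg (N x)]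
      · nlinarith
    have h4 : N (a * x ^ 2 + (b * x + c)) < N (x ^ 3) := by
      rw [N_pow]
      refine lt_of_le_of_lt h3 ?_
      have : 0 < N x ^ 2 := by positivity
      nlinarith
    have h5 := N_add h4
    rw [← h1, N_pow, N_pow] at h5
    exact h5
  have hy0 : 0 < N y := by
    have h1 : 0 < N y ^ 2 := by rw [hy]; positivity
    rcases (N_nonneg y).lt_or_eq with h | h
    · exact h
    · rw [← h] at h1; norm_num at h1
  have hyn : y ≠ 0 := by
    rintro rfl
    simp [N] at hy0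
  obtain ⟨l, hl⟩ : ∃ l : ℚ, l = (3 * x ^ 2 + 2 * a * x + b) / (2 * y) := ⟨_, rfl⟩
  have hl' : l * (2 * y) = 3 * x ^ 2 + 2 * a * x + b := by
    rw [hl]; field_simp
  refine ⟨l ^ 2 - a - 2 * x, -(y + l * (l ^ 2 - a - 2 * x - x)), ?_, ?_⟩
  · show (-(y + l * (l ^ 2 - a - 2 * x - x))) ^ 2 = (l ^ 2 - a - 2 * x) ^ 3 +
      a * (l ^ 2 - a - 2 * x) ^ 2 + b * (l ^ 2 - a - 2 * x) + c
    linear_combination he + (l ^ 2 - a - 2 * x - x) * hl'
  · have h3 : N (3 : ℚ) = 1 := by
      have := padicNorm.padicNorm_of_prime_of_ne (p := 2) (q := 3) (by norm_num)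
      exact_mod_cast this
    have h1 : N (2 * a * x + b) ≤ N x := by
      refine (N_le_add _ _).trans (max_le ?_ ?_)
      · rw [N_mul, N_mul, N_two]; nlinarith [N_nonneg (a : ℚ)]
      · linarith
    have h2 : N (3 * x ^ 2 + 2 * a * x + b) = N x ^ 2 := by
      have h4 : N (2 * a * x + b) < N (3 * x ^ 2) := by
        rw [N_mul, h3, N_pow, one_mul]
        nlinarith
      have h5 := N_add h4
      rw [N_mul, h3, N_pow, one_mul] at h5
      rw [← h5]
      congr 1
      ring
    have h4 : N l = 2 * N x ^ 2 / N y := by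
      rw [hl, N_div, h2, N_mul, N_two]
      field_simp
    have h5 : N (l ^ 2) = 4 * N x := by
      rw [N_pow, h4, div_pow, hy, div_eq_iff (by positivity)]
      ring
    have h6 : N (-(a : ℚ) - 2 * x) ≤ max 1 (N x) := by
      have e : -(a : ℚ) - 2 * x = ((-a : ℤ) : ℚ) + (-2) * x := by push_cast; ring
      rw [e]
      refine (N_le_add _ _).trans (max_le_max (N_int _) ?_)
      rw [N_mul]
      have h7 : N (-2 : ℚ) = 1 / 2 := by
        rw [N, padicNorm.neg, ← N_two]
      rw [h7]; linarith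
    have h7 : N (-(a : ℚ) - 2 * x) < N (l ^ 2) := by
      rw [h5]
      refine lt_of_le_of_lt h6 (max_lt (by linarith) (by linarith))
    have h8 := N_add h7
    rw [h5] at h8
    rw [← h8]
    congr 1
    ring

theorem many {a b c : ℤ} {x y : ℚ} (hp : (x, y) ∈ Pts a b c) (hx : 1 < N x) (n : ℕ) :
    ∃ X Y : ℚ, (X, Y) ∈ Pts a b c ∧ (4 : ℚ) ^ n < N X := by
  induction n with
  | zero => exact ⟨x, y, hp, by simpa using hx⟩
  | succ n ih =>
    obtain ⟨X, Y, h1, h2⟩ := ih
    have h3 : 1 < N X := lt_of_le_of_lt (one_le_pow₀ (by norm_num)) h2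
    obtain ⟨X', Y', h4, h5⟩ := double h1 h3
    refine ⟨X', Y', h4, ?_⟩
    rw [h5, pow_succ]
    linarith

/-- soundness -/
theorem infinite_of {a b c : ℤ} {x y : ℚ} (hp : (x, y) ∈ Pts a b c) (hx : 1 < N x) :
    (Pts a b c).Infinite := by
  intro hfin
  obtain ⟨B, hB⟩ := (hfin.image (fun p => N p.1)).bddAbove
  obtain ⟨n, hn⟩ := pow_unbounded_of_one_lt B (by norm_num : (1 : ℚ) < 4)
  obtain ⟨X, Y, h1, h2⟩ := many hp hx n
  have h3 : N X ≤ B := hB ⟨(X, Y), h1, rfl⟩
  linarith

end Pool.Agent.Run7.h250.QA
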