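import Pool.Agent.Run7.h250.QA.Ns
import Pool.Agent.Run7.h250.QA.Alg

/-!
The curves `y² = x³ - 4 d x² + 2 d² x`: scaling, finiteness, the algorithm.
-/

set_option autoImplicit false

namespace Pool.Agent.Run7.h250.QA

/-- scaling -/
theorem scale_mem {a b c k : ℤ} {x y : ℚ} (h : (x, y) ∈ Pts a b c) :
    ((k : ℚ) ^ 2 * x, (k : ℚ) ^ 3 * y) ∈ Pts (a * k ^ 2) (b * k ^ 4) (c * k ^ 6) := by
  have h1 : y ^ 2 = x ^ 3 + a * x ^ 2 + b * x + c := h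
  show ((k : ℚ) ^ 3 * y) ^ 2 = ((k : ℚ) ^ 2 * x) ^ 3 + ((a * k ^ 2 : ℤ) : ℚ) * ((k : ℚ) ^ 2 * x) ^ 2 +
    ((b * k ^ 4 : ℤ) : ℚ) * ((k : ℚ) ^ 2 * x) + ((c * k ^ 6 : ℤ) : ℚ)
  push_cast
  linear_combination (k : ℚ) ^ 6 * h1

theorem scale_finite {a b c k : ℤ} (hk : k ≠ 0) (h : (Pts a b c).Finite) :
    (Pts (a * k ^ 2) (b * k ^ 4) (c * k ^ 6)).Finite := by
  have hk' : (k : ℚ) ≠ 0 := by exact_mod_cast hk
  refine (h.image fun p : ℚ × ℚ => ((k : ℚ) ^ 2 * p.1, (k : ℚ) ^ 3 * p.2)).subset ?_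
  rintro ⟨x, y⟩ hxy
  have h1 : y ^ 2 = x ^ 3 + ((a * k ^ 2 : ℤ) : ℚ) * x ^ 2 + ((b * k ^ 4 : ℤ) : ℚ) * x +
    ((c * k ^ 6 : ℤ) : ℚ) := hxy
  push_cast at h1
  refine ⟨(x / (k : ℚ) ^ 2, y / (k : ℚ) ^ 3), ?_, ?_⟩
  · show (y / (k : ℚ) ^ 3) ^ 2 = (x / (k : ℚ) ^ 2) ^ 3 + a * (x / (k : ℚ) ^ 2) ^ 2 +
      b * (x / (k : ℚ) ^ 2) + c
    field_simp
    linear_combination h1
  · show ((k : ℚ) ^ 2 * (x / (k : ℚ) ^ 2), (k : ℚ) ^ 3 * (y / (k : ℚ) ^ 3)) = (x, y)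
    congr 1 <;> field_simp

theorem scale_infinite {a b c k : ℤ} (hk : k ≠ 0) (h : (Pts a b c).Infinite) :
    (Pts (a * k ^ 2) (b * k ^ 4) (c * k ^ 6)).Infinite := by
  have hk' : (k : ℚ) ≠ 0 := by exact_mod_cast hk
  refine (h.image (f := fun p : ℚ × ℚ => ((k : ℚ) ^ 2 * p.1, (k : ℚ) ^ 3 * p.2)) ?_).mono ?_
  · rintro ⟨x, y⟩ - ⟨x', y'⟩ - he
    simp only [Prod.mk.injEq] at he
    have e1 := mul_left_cancel₀ (pow_ne_zero 2 hk') he.1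
    have e2 := mul_left_cancel₀ (pow_ne_zero 3 hk') he.2
    rw [e1, e2]
  · rintro _ ⟨⟨x, y⟩, h1, rfl⟩
    exact scale_mem h1

/-- the curve over `ℚ` -/
def Wc (a b c : ℤ) : WeierstrassCurve ℚ :=
  { a₁ := 0, a₂ := (a : ℚ), a₃ := 0, a₄ := (b : ℚ), a₆ := (c : ℚ) }

theorem Wc_disc (a b c : ℤ) : (Wc a b c).Δ = 16 * (disc a b c : ℚ) := by
  unfold Wc WeierstrassCurve.Δ WeierstrassCurve.b₂ WeierstrassCurve.b₄ WeierstrassCurve.b₆
    WeierstrassCurve.b₈ disc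
  push_cast
  ring

theorem Wc_eqn (a b c : ℤ) (x y : ℚ) :
    (Wc a b c).toAffine.Equation x y ↔ (x, y) ∈ Pts a b c := by
  rw [WeierstrassCurve.Affine.equation_iff]
  simp [Wc, Pts]

theorem pts_finite {a b c : ℤ} (hD : disc a b c ≠ 0) (h : Finite (Wc a b c).toAffine.Point) :
    (Pts a b c).Finite := by
  have hns : ∀ q : Pts a b c, (Wc a b c).toAffine.Nonsingular q.1.1 q.1.2 := by
    rintro ⟨⟨x, y⟩, hxy⟩
    refine (WeierstrassCurve.Affine.equation_iff_nonsingular_of_Δ_ne_zero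
      (W := (Wc a b c).toAffine) ?_).1 ((Wc_eqn a b c x y).2 hxy)
    show (Wc a b c).Δ ≠ 0
    rw [Wc_disc]
    exact mul_ne_zero (by norm_num) (by exact_mod_cast hD)
  refine Set.finite_coe_iff.1 (Finite.of_injective (fun q : Pts a b c =>
    (WeierstrassCurve.Affine.Point.some q.1.1 q.1.2 (hns q) : (Wc a b c).toAffine.Point)) ?_)
  rintro ⟨⟨x, y⟩, h1⟩ ⟨⟨x', y'⟩, h2⟩ h3
  simp only [WeierstrassCurve.Affine.Point.some.injEq] at h3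
  obtain ⟨rfl, rfl⟩ := h3
  rfl

theorem disc_fam (m : ℤ) : disc (-(4 * m)) (2 * m ^ 2) 0 = 32 * m ^ 6 := by
  unfold disc
  ring

/-- squarefree parts are unique -/
theorem sqf_unique {m m' : ℕ} {k k' : ℤ} (hm : Squarefree m) (hm' : Squarefree m') (hk : k ≠ 0)
    (hk' : k' ≠ 0) (h : (m : ℤ) * (k * k) = (m' : ℤ) * (k' * k')) : m = m' := by
  have h1 : m * k.natAbs ^ 2 = m' * k'.natAbs ^ 2 := by
    have h2 := congrArg Int.natAbs h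
    rw [Int.natAbs_mul, Int.natAbs_mul, Int.natAbs_mul, Int.natAbs_mul, Int.natAbs_natCast,
      Int.natAbs_natCast] at h2
    rw [pow_two, pow_two]
    exact h2
  have hk1 : k.natAbs ≠ 0 := Int.natAbs_ne_zero.2 hk
  have hk2 : k'.natAbs ≠ 0 := Int.natAbs_ne_zero.2 hk'
  refine Nat.eq_of_factorization_eq hm.ne_zero hm'.ne_zero fun p => ?_
  have h3 : (m * k.natAbs ^ 2).factorization p = (m' * k'.natAbs ^ 2).factorization p := by rw [h1]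
  rw [Nat.factorization_mul hm.ne_zero (pow_ne_zero 2 hk1),
    Nat.factorization_mul hm'.ne_zero (pow_ne_zero 2 hk2), Nat.factorization_pow,
    Nat.factorization_pow] at h3
  simp only [Finsupp.add_apply, Finsupp.smul_apply, smul_eq_mul] at h3
  have h4 := hm.natFactorization_le_one p
  have h5 := hm'.natFactorization_le_one p
  omega

end Pool.Agent.Run7.h250.QA
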