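import Pool.Agent.Run7.h250.QA.Crt2
import Pool.Agent.Run7.h250.QA.Fam

/-!
The criterion in terms of natural numbers and bounded searches is the criterion.
-/

set_option autoImplicit false

namespace Pool.Agent.Run7.h250.QA

/-- the pairs -/
def PrZ (u v : ℤ) : Prop := IsCoprime u v ∧ u ≠ 0 ∧ v ≠ 0 ∧ u ^ 2 ≠ v ^ 2

/-- `D` is admissible -/
def AdZ (u v D : ℤ) : Prop := Squarefree D ∧ D.natAbs % 4 = 3 ∧
  (∀ l : ℕ, l.Prime → l ≠ 2 → (l : ℤ) ∣ u * v → ¬ IsSquare (D : ZMod l)) ∧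
  (∀ l : ℕ, l.Prime → l ≠ 2 → (l : ℤ) ∣ u ^ 2 - v ^ 2 → ¬ IsSquare (-(D : ZMod l))) ∧
  (0 < D → (u * v % 2 = 1 ∧ (D % 8 = 3 ∨ (u ^ 2 - v ^ 2) % 32 = 16)) ∨ u * v % 4 = 2) ∧
  (D < 0 → (u * v % 2 = 1 ∧ (u ^ 2 - v ^ 2) % 16 = 8) ∨
    (u * v % 2 = 0 ∧ (D.natAbs % 8 = 3 ∨ u * v % 8 = 4)))

/-- only the trivial factorizations are solvable -/
def QcZ (n : ℕ) : Prop := ∀ b c : ℕ, b * c = n → (∀ p ∈ c.primeFactors, jacobiSym b p = 1) →
  (∀ p ∈ b.primeFactors, jacobiSym c p = 1) → b = 1 ∨ c = 1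

theorem sf_iff (m : ℕ) : Sf m ↔ Squarefree m := by
  unfold Sf
  constructor
  · rintro ⟨hm, h⟩
    rw [Nat.squarefree_iff_prime_squarefree]
    intro k hk hkm
    refine h k (Nat.lt_succ_of_le ?_) hk hkm
    exact (Nat.le_mul_self k).trans (Nat.le_of_dvd (Nat.pos_of_ne_zero hm) hkm)
  · intro h
    exact ⟨h.ne_zero, fun k _ hk hkm => (Nat.squarefree_iff_prime_squarefree.1 h) k hk hkm⟩

theorem nn_iff {p : ℕ} (hp : 0 < p) (q : ℕ) : NN p q ↔ ¬ IsSquare (-(q : ZMod p)) := by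
  have : NeZero p := ⟨hp.ne'⟩
  unfold NN
  rw [not_iff_not]
  constructor
  · rintro ⟨x, -, hx⟩
    refine ⟨(x : ZMod p), ?_⟩
    have h1 : ((x * x + q : ℕ) : ZMod p) = 0 := by
      rw [ZMod.natCast_eq_zero_iff]
      exact Nat.dvd_of_mod_eq_zero hx
    push_cast at h1
    linear_combination -h1
  · rintro ⟨y, hy⟩
    refine ⟨y.val, y.val_lt, ?_⟩
    refine Nat.mod_eq_zero_of_dvd ?_
    rw [← ZMod.natCast_eq_zero_iff]
    push_cast
    rw [ZMod.natCast_zmod_val]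
    linear_combination -hy

theorem pr_iff (u v : ℤ) : PrN u.natAbs v.natAbs ↔ PrZ u v := by
  unfold PrN PrZ
  rw [Int.isCoprime_iff_nat_coprime, Int.natAbs_eq_zero, Int.natAbs_eq_zero]
  have h1 : u.natAbs * u.natAbs = v.natAbs * v.natAbs ↔ u ^ 2 = v ^ 2 := by
    rw [← @Nat.cast_inj ℤ, Nat.cast_mul, Nat.cast_mul, Int.natAbs_mul_self', Int.natAbs_mul_self',
      pow_two, pow_two]
  rw [h1]

theorem sq_natAbs (u : ℤ) : ((u.natAbs : ℕ) : ℤ) * u.natAbs = u ^ 2 := by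
  rw [Int.natAbs_mul_self', pow_two]

/-- the conditions at the odd primes -/
theorem loc_iff2 {u v : ℤ} (h : PrZ u v) (P Q : ℕ → Prop) :
    (∀ l < u.natAbs * u.natAbs + v.natAbs * v.natAbs + 1, (l.Prime ∧ ¬ l = 2 →
      (l ∣ u.natAbs * v.natAbs → P l) ∧
        (u.natAbs * u.natAbs % l = v.natAbs * v.natAbs % l → Q l))) ↔
    (∀ l : ℕ, l.Prime → l ≠ 2 → (l : ℤ) ∣ u * v → P l) ∧
    (∀ l : ℕ, l.Prime → l ≠ 2 → (l : ℤ) ∣ u ^ 2 - v ^ 2 → Q l) := by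
  obtain ⟨-, hu, hv, hne⟩ := h
  have e1 : ∀ l : ℕ, (l : ℤ) ∣ u * v ↔ l ∣ u.natAbs * v.natAbs := by
    intro l
    rw [← Int.natAbs_mul, Int.natCast_dvd]
  have e2 : ∀ l : ℕ, (l : ℤ) ∣ u ^ 2 - v ^ 2 ↔
      u.natAbs * u.natAbs % l = v.natAbs * v.natAbs % l := by
    intro l
    have h1 := Nat.modEq_iff_dvd (a := v.natAbs * v.natAbs) (b := u.natAbs * u.natAbs) (n := l)
    rw [Nat.cast_mul, Nat.cast_mul, sq_natAbs, sq_natAbs] at h1
    rw [← h1]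
    exact ⟨fun h => h.symm, fun h => h.symm⟩
  have hu1 : 0 < u.natAbs := Int.natAbs_pos.2 hu
  have hv1 : 0 < v.natAbs := Int.natAbs_pos.2 hv
  constructor
  · intro h
    refine ⟨fun l hl hl2 hd => ?_, fun l hl hl2 hd => ?_⟩
    · have h1 := (e1 l).1 hd
      have h2 := Nat.le_of_dvd (by positivity) h1
      refine (h l ?_ ⟨hl, hl2⟩).1 h1
      have h3 : u.natAbs * v.natAbs ≤ u.natAbs * u.natAbs + v.natAbs * v.natAbs := by
        rcases le_total u.natAbs v.natAbs with h4 | h4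
        · nlinarith
        · nlinarith
      omega
    · have h1 := (e2 l).1 hd
      refine (h l ?_ ⟨hl, hl2⟩).2 h1
      have h5 : u ^ 2 - v ^ 2 ≠ 0 := sub_ne_zero.2 hne
      have h6 : l ≤ (u ^ 2 - v ^ 2).natAbs :=
        Nat.le_of_dvd (Int.natAbs_pos.2 h5) (Int.natCast_dvd.1 hd)
      have h7 : ((u ^ 2 - v ^ 2).natAbs : ℤ) ≤
          ((u.natAbs * u.natAbs + v.natAbs * v.natAbs : ℕ) : ℤ) := by
        rw [Int.natCast_natAbs, Nat.cast_add, Nat.cast_mul, Nat.cast_mul, sq_natAbs, sq_natAbs,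
          abs_le]
        constructor
        · nlinarith [sq_nonneg u, sq_nonneg v]
        · nlinarith [sq_nonneg u, sq_nonneg v]
      have h8 : (u ^ 2 - v ^ 2).natAbs ≤ u.natAbs * u.natAbs + v.natAbs * v.natAbs := by
        exact_mod_cast h7
      omega
  · rintro ⟨h1, h2⟩ l - ⟨hl, hl2⟩
    exact ⟨fun h3 => h1 l hl hl2 ((e1 l).2 h3), fun h3 => h2 l hl hl2 ((e2 l).2 h3)⟩

theorem par (u v : ℤ) : (u.natAbs * v.natAbs % 2 = 1 ↔ u * v % 2 = 1) ∧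
    (u.natAbs * v.natAbs % 2 = 0 ↔ u * v % 2 = 0) ∧
    (u.natAbs * v.natAbs % 4 = 2 ↔ u * v % 4 = 2) ∧
    (u.natAbs * v.natAbs % 8 = 4 ↔ u * v % 8 = 4) := by
  rw [← Int.natAbs_mul]
  refine ⟨?_, ?_, ?_, ?_⟩ <;> omega

theorem par2 (u v : ℤ) : (u.natAbs * u.natAbs % 32 = (v.natAbs * v.natAbs + 16) % 32 ↔
      (u ^ 2 - v ^ 2) % 32 = 16) ∧
    (u.natAbs * u.natAbs % 16 = (v.natAbs * v.natAbs + 8) % 16 ↔ (u ^ 2 - v ^ 2) % 16 = 8) := by
  have h1 := sq_natAbs u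
  have h2 := sq_natAbs v
  rw [← Nat.cast_mul] at h1 h2
  rw [← h1, ← h2]
  constructor <;> omega

theorem adP_iff {u v : ℤ} (h : PrZ u v) (m : ℕ) : AdP u.natAbs v.natAbs m ↔ AdZ u v m := by
  unfold AdP AdZ
  rw [loc_iff2 h, sf_iff, Int.natAbs_natCast, Int.squarefree_natCast]
  have e1 : (∀ l : ℕ, l.Prime → l ≠ 2 → (l : ℤ) ∣ u * v → NQ l m) ↔
      (∀ l : ℕ, l.Prime → l ≠ 2 → (l : ℤ) ∣ u * v → ¬ IsSquare (((m : ℕ) : ℤ) : ZMod l)) := by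
    refine forall_congr' fun l => forall_congr' fun hl => ?_
    rw [nq_iff hl.pos, Int.cast_natCast]
  have e2 : (∀ l : ℕ, l.Prime → l ≠ 2 → (l : ℤ) ∣ u ^ 2 - v ^ 2 → NN l m) ↔
      (∀ l : ℕ, l.Prime → l ≠ 2 → (l : ℤ) ∣ u ^ 2 - v ^ 2 →
        ¬ IsSquare (-(((m : ℕ) : ℤ) : ZMod l))) := by
    refine forall_congr' fun l => forall_congr' fun hl => ?_
    rw [nn_iff hl.pos, Int.cast_natCast]
  rw [e1, e2, (par u v).1, (par u v).2.2.1, (par2 u v).1]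
  constructor
  · rintro ⟨h1, h2, ⟨h3, h4⟩, h5⟩
    refine ⟨h1, h2, h3, h4, fun _ => ?_, fun h6 => by omega⟩
    rcases h5 with ⟨h5, h6⟩ | h5
    · refine Or.inl ⟨h5, ?_⟩
      rcases h6 with h6 | h6
      · left; omega
      · exact Or.inr h6
    · exact Or.inr h5
  · rintro ⟨h1, h2, h3, h4, h5, -⟩
    refine ⟨h1, h2, ⟨h3, h4⟩, ?_⟩
    rcases h5 (by omega) with ⟨h5, h6⟩ | h5
    · refine Or.inl ⟨h5, ?_⟩
      rcases h6 with h6 | h6
      · left; omega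
      · exact Or.inr h6
    · exact Or.inr h5

theorem adN_iff {u v : ℤ} (h : PrZ u v) (m : ℕ) : AdN u.natAbs v.natAbs m ↔ AdZ u v (-m) := by
  unfold AdN AdZ
  rw [loc_iff2 h, sf_iff, Int.natAbs_neg, Int.natAbs_natCast, ← Int.squarefree_natCast]
  have e0 : Squarefree (-(m : ℤ)) ↔ Squarefree (m : ℤ) := by
    rw [← Int.squarefree_natAbs, Int.natAbs_neg, Int.squarefree_natAbs]
  have e1 : (∀ l : ℕ, l.Prime → l ≠ 2 → (l : ℤ) ∣ u * v → NN l m) ↔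
      (∀ l : ℕ, l.Prime → l ≠ 2 → (l : ℤ) ∣ u * v → ¬ IsSquare ((-((m : ℕ) : ℤ) : ℤ) : ZMod l)) := by
    refine forall_congr' fun l => forall_congr' fun hl => ?_
    rw [nn_iff hl.pos, Int.cast_neg, Int.cast_natCast]
  have e2 : (∀ l : ℕ, l.Prime → l ≠ 2 → (l : ℤ) ∣ u ^ 2 - v ^ 2 → NQ l m) ↔
      (∀ l : ℕ, l.Prime → l ≠ 2 → (l : ℤ) ∣ u ^ 2 - v ^ 2 →
        ¬ IsSquare (-((-((m : ℕ) : ℤ) : ℤ) : ZMod l))) := by
    refine forall_congr' fun l => forall_congr' fun hl => ?_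
    rw [nq_iff hl.pos, Int.cast_neg, Int.cast_natCast, neg_neg]
  rw [e0, e1, e2, (par u v).1, (par u v).2.1, (par u v).2.2.2, (par2 u v).2]
  constructor
  · rintro ⟨h1, h2, ⟨h3, h4⟩, h5⟩
    exact ⟨h1, h2, h3, h4, fun h6 => by omega, fun _ => h5⟩
  · rintro ⟨h1, h2, h3, h4, -, h5⟩
    exact ⟨h1, h2, ⟨h3, h4⟩, h5 (by omega)⟩

theorem rs_iff {m b c : ℕ} (hm : Squarefree m) (hm2 : m % 4 = 3) (hbc : b * c = m) :
    Rs b c ↔ ∀ p ∈ c.primeFactors, jacobiSym b p = 1 := by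
  have hc0 : c ≠ 0 := by
    rintro rfl
    rw [mul_zero] at hbc
    omega
  have hcop : Nat.Coprime b c := by
    rw [← hbc] at hm
    exact Nat.coprime_of_squarefree_mul hm
  have key : ∀ p : ℕ, p.Prime → p ∣ c → (¬ NQ p b ↔ jacobiSym b p = 1) := by
    intro p hp hpc
    have : Fact p.Prime := ⟨hp⟩
    have hb : ((b : ℤ) : ZMod p) ≠ 0 := by
      rw [Int.cast_natCast, Ne, ZMod.natCast_eq_zero_iff]
      intro h
      have := Nat.dvd_gcd h hpc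
      rw [hcop] at this
      exact hp.one_lt.ne' (Nat.dvd_one.1 this)
    rw [nq_iff hp.pos, not_not, ← jacobiSym.legendreSym.to_jacobiSym, legendreSym.eq_one_iff p hb,
      Int.cast_natCast]
  unfold Rs
  constructor
  · intro h p hp
    have hpp := Nat.prime_of_mem_primeFactors hp
    have hpc := Nat.dvd_of_mem_primeFactors hp
    exact (key p hpp hpc).1 (h p (Nat.lt_succ_of_le (Nat.le_of_dvd (Nat.pos_of_ne_zero hc0) hpc))
      ⟨hpp, hpc⟩)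
  · rintro h p - ⟨hpp, hpc⟩
    exact (key p hpp hpc).2 (h p (Nat.mem_primeFactors.2 ⟨hpp, hpc, hc0⟩))

theorem qc_iff {m : ℕ} (hm : Squarefree m) (hm2 : m % 4 = 3) : QcC m ↔ QcZ m := by
  unfold QcC QcZ
  constructor
  · intro h b c hbc h1 h2
    refine h b ?_ c ?_ ⟨hbc, (rs_iff hm hm2 hbc).2 h1, (rs_iff hm hm2 (by rw [mul_comm]; exact hbc)).2 h2⟩
    · exact Nat.lt_succ_of_le (Nat.le_of_dvd (Nat.pos_of_ne_zero hm.ne_zero) ⟨c, hbc.symm⟩)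
    · exact Nat.lt_succ_of_le (Nat.le_of_dvd (Nat.pos_of_ne_zero hm.ne_zero)
        ⟨b, by rw [mul_comm]; exact hbc.symm⟩)
  · rintro h b - c - ⟨hbc, h1, h2⟩
    exact h b c hbc ((rs_iff hm hm2 hbc).1 h1) ((rs_iff hm hm2 (by rw [mul_comm]; exact hbc)).1 h2)

/-- the polynomial `y² - x (x + u² d) (x + v² d)` -/
def Pl (u v d : ℤ) : List (List ℤ) := poly ((u ^ 2 + v ^ 2) * d) (u ^ 2 * v ^ 2 * d ^ 2) 0

theorem Lf_eq (u v d : ℤ) : Lf u.natAbs v.natAbs d = Pl u v d := by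
  unfold Lf Pl
  rw [sq_natAbs, sq_natAbs]
  congr 1
  have h1 : (u.natAbs : ℤ) * v.natAbs * (u.natAbs * v.natAbs) * (d * d) =
      ((u.natAbs : ℤ) * u.natAbs) * ((v.natAbs : ℤ) * v.natAbs) * d ^ 2 := by ring
  rw [h1, sq_natAbs, sq_natAbs]

/-- the certificates for the second family -/
theorem pFin2_iff (L : List (List ℤ)) : PFin2 L ↔ ∃ u v D k : ℤ, PrZ u v ∧ AdZ u v D ∧ k ≠ 0 ∧
    QcZ D.natAbs ∧ L = Pl u v (D * k ^ 2) := by
  constructor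
  · rintro ⟨⟨⟨U, V⟩, m, k⟩, ⟨h1, h2, h3⟩, h4⟩
    simp only at h1 h2 h3 h4
    have hp : PrZ U V := (pr_iff U V).1 h1
    have hk2 : k * k = k ^ 2 := (pow_two k).symm
    rcases h4 with ⟨h4, h5⟩ | ⟨h4, h5⟩
    · have h6 := (adP_iff hp m).1 h4
      refine ⟨U, V, m, k, hp, h6, h2, ?_, ?_⟩
      · rw [Int.natAbs_natCast]
        exact (qc_iff ((sf_iff m).1 h4.1) h4.2.1).1 h3
      · rw [h5, ← Lf_eq, Int.natAbs_natCast, Int.natAbs_natCast, hk2]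
    · have h6 := (adN_iff hp m).1 h4
      refine ⟨U, V, -m, k, hp, h6, h2, ?_, ?_⟩
      · rw [Int.natAbs_neg, Int.natAbs_natCast]
        exact (qc_iff ((sf_iff m).1 h4.1) h4.2.1).1 h3
      · rw [h5, ← Lf_eq, Int.natAbs_natCast, Int.natAbs_natCast, hk2, neg_mul]
  · rintro ⟨u, v, D, k, hp, hA, hk, hQ, hL⟩
    have hk2 : k * k = k ^ 2 := (pow_two k).symm
    have hs : Squarefree D.natAbs := Int.squarefree_natAbs.2 hA.1
    refine ⟨⟨⟨u.natAbs, v.natAbs⟩, D.natAbs, k⟩, ⟨(pr_iff u v).2 hp, hk,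
      (qc_iff hs hA.2.1).2 hQ⟩, ?_⟩
    simp only
    rw [Lf_eq, Lf_eq, hL, hk2]
    rcases Int.natAbs_eq D with h | h
    · left
      rw [← h]
      exact ⟨(adP_iff hp _).2 (by rw [← h]; exact hA), rfl⟩
    · right
      refine ⟨(adN_iff hp _).2 (by rw [← h]; exact hA), ?_⟩
      rw [← neg_mul, ← h]

/-- the twisting numbers are determined -/
theorem twist_unique {u v D k U V D' k' : ℤ} (h : PrZ u v) (h' : PrZ U V) (hD : Squarefree D)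
    (hD' : Squarefree D') (hk : k ≠ 0) (hk' : k' ≠ 0)
    (he : Pl u v (D * k ^ 2) = Pl U V (D' * k' ^ 2)) : D = D' := by
  obtain ⟨e1, e2, -⟩ := poly_inj he
  obtain ⟨-, hu, hv, -⟩ := h
  obtain ⟨-, hU, hV, -⟩ := h'
  have key : (u ^ 2 * (D * k ^ 2) - U ^ 2 * (D' * k' ^ 2)) *
      (u ^ 2 * (D * k ^ 2) - V ^ 2 * (D' * k' ^ 2)) = 0 := by
    linear_combination (u ^ 2 * (D * k ^ 2)) * e1 - e2
  have fin : ∀ x y : ℤ, x ≠ 0 → y ≠ 0 → D * x ^ 2 = D' * y ^ 2 → D = D' := by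
    intro x y hx hy hxy
    have hx2 : 0 < x ^ 2 := by positivity
    have hy2 : 0 < y ^ 2 := by positivity
    have h1 : D.natAbs = D'.natAbs := by
      refine sqf_unique (k := x) (k' := y) (Int.squarefree_natAbs.2 hD)
        (Int.squarefree_natAbs.2 hD') hx hy ?_
      rw [← pow_two, ← pow_two]
      have h2 := congrArg (fun z : ℤ => (z.natAbs : ℤ)) hxy
      simp only [Int.natAbs_mul, Nat.cast_mul] at h2
      rwa [Int.natAbs_of_nonneg hx2.le, Int.natAbs_of_nonneg hy2.le] at h2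
    rcases Int.natAbs_eq_natAbs_iff.1 h1 with h2 | h2
    · exact h2
    · exfalso
      rw [h2] at hxy
      have h3 : D' * (x ^ 2 + y ^ 2) = 0 := by linear_combination -hxy
      rcases mul_eq_zero.1 h3 with h4 | h4
      · exact hD'.ne_zero h4
      · omega
  rcases mul_eq_zero.1 key with h1 | h1
  · exact fin (u * k) (U * k') (mul_ne_zero hu hk) (mul_ne_zero hU hk') (by linear_combination h1)
  · exact fin (u * k) (V * k') (mul_ne_zero hu hk) (mul_ne_zero hV hk') (by linear_combination h1)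

theorem disc_fam2 (u v D : ℤ) : disc ((u ^ 2 + v ^ 2) * D) (u ^ 2 * v ^ 2 * D ^ 2) 0 =
    u ^ 4 * v ^ 4 * D ^ 6 * (u ^ 2 - v ^ 2) ^ 2 := by
  unfold disc
  ring

/-- the first family -/
theorem pFin1_iff (L : List (List ℤ)) : PFin1 L ↔ ∃ (m : ℕ) (k : ℤ), (Squarefree m ∧ m % 2 = 1 ∧
    Ns m) ∧ k ≠ 0 ∧ ∃ d : ℤ, (d = m * k ^ 2 ∨ d = -2 * (m * k ^ 2)) ∧
      L = poly (-4 * d) (2 * d ^ 2) 0 := by
  constructor
  · rintro ⟨⟨m, k⟩, h1, h2, h3⟩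
    simp only at h1 h2 h3
    refine ⟨m, k, (crit_iff m).1 h1, h2, ?_⟩
    rcases h3 with h3 | h3
    · refine ⟨_, Or.inl rfl, ?_⟩
      rw [h3]
      congr 1 <;> ring
    · refine ⟨_, Or.inr rfl, ?_⟩
      rw [h3]
      congr 1 <;> ring
  · rintro ⟨m, k, h1, h2, d, h3, h4⟩
    refine ⟨⟨m, k⟩, (crit_iff m).2 h1, h2, ?_⟩
    simp only
    rcases h3 with h3 | h3
    · left
      rw [h4, h3]
      congr 1 <;> ring
    · right
      rw [h4, h3]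
      congr 1 <;> ring

/-- the squarefree part is determined -/
theorem twist_unique1 {m m' : ℕ} {k k' d : ℤ} (hm : Squarefree m) (hm' : Squarefree m')
    (hk : k ≠ 0) (hk' : k' ≠ 0) (h : d = m * k ^ 2 ∨ d = -2 * (m * k ^ 2))
    (h' : d = m' * k' ^ 2 ∨ d = -2 * (m' * k' ^ 2)) : m = m' := by
  have p1 : 0 < (m : ℤ) * k ^ 2 := by
    have := Nat.pos_of_ne_zero hm.ne_zero
    positivity
  have p2 : 0 < (m' : ℤ) * k' ^ 2 := by
    have := Nat.pos_of_ne_zero hm'.ne_zero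
    positivity
  have e : (m : ℤ) * k ^ 2 = (m' : ℤ) * k' ^ 2 := by
    rcases h with h | h <;> rcases h' with h' | h' <;> omega
  refine sqf_unique hm hm' hk hk' ?_
  rw [← pow_two, ← pow_two]
  exact e

/-- the two families are disjoint -/
theorem disjoint_fam {u v d d' : ℤ} (hd' : d' ≠ 0)
    (he : Pl u v d = poly (-4 * d') (2 * d' ^ 2) 0) : False := by
  obtain ⟨-, e2, -⟩ := poly_inj he
  have h1 : (u * v * d) ^ 2 = 2 * d' ^ 2 := by linear_combination e2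
  have h2 : ((u * v * d : ℤ) : ℝ) ^ 2 = 2 * (d' : ℝ) ^ 2 := by exact_mod_cast h1
  have hd2 : (d' : ℝ) ≠ 0 := by exact_mod_cast hd'
  have h3 : (((u * v * d : ℤ) : ℝ) / d') ^ 2 = 2 := by
    rw [div_pow, h2]
    field_simp
  have h4 : Real.sqrt 2 = |((u * v * d : ℤ) : ℝ) / d'| := by
    rw [← h3, Real.sqrt_sq_eq_abs]
  have h5 : Real.sqrt 2 = ((|((u * v * d : ℤ) : ℚ) / d'| : ℚ) : ℝ) := by
    rw [h4]
    push_cast
    rfl
  exact irrational_sqrt_two ⟨_, h5.symm⟩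

end Pool.Agent.Run7.h250.QA
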